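import Pool.Agent.Lib_helper41.TK.W.AA
import Pool.Agent.Lib_helper41.TK.W.AB
import Pool.Agent.Lib_helper68.LEV.GEL
import Pool.Agent.Lib_helper68.LEV.GIH
import Pool.Agent.Lib_helper68.KSLF.GHK

/-! TK, block AD. -/

set_option autoImplicit false

namespace Pool.Agent.TK

open Pool.Agent.LEV Pool.Agent.LVB Pool.Agent.KSL
open Pool.Agent.LK (PQ)
open Pool.Agent.FG61 (mu phi cc ff AA Lam)
open Complex MeasureTheory Filter Topology UpperHalfPlane ModularGroup ProbabilityTheory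
open scoped MatrixGroups Modular ENNReal ModularForm ComplexConjugate ContDiff

section chars
variable {q : ℕ} [NeZero q]

theorem ad_range_mul (F : ℕ → ℂ) (q M : ℕ) : ∑ j ∈ Finset.range (q * M), F j =
    ∑ l ∈ Finset.range M, ∑ i ∈ Finset.range q, F (q * l + i) := by
  induction M with
  | zero => simp
  | succ M ih => rw [Nat.mul_succ, Finset.sum_range_add, ih, Finset.sum_range_succ]

theorem ad_range_zmod (G : ZMod q → ℂ) :
    ∑ i ∈ Finset.range q, G (i : ZMod q) = ∑ a : ZMod q, G a := by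
  refine Finset.sum_nbij' (fun i => (i : ZMod q)) (fun a => a.val) ?_ ?_ ?_ ?_ ?_
  · intro i _
    exact Finset.mem_univ _
  · intro a _
    exact Finset.mem_range.2 (ZMod.val_lt a)
  · intro i hi
    exact ZMod.val_cast_of_lt (Finset.mem_range.1 hi)
  · intro a _
    exact ZMod.natCast_zmod_val a
  · intro i _
    rfl

theorem ad_inv {χ : DirichletCharacter ℂ q} (hχ : PQ χ) : χ⁻¹ = χ := by
  have h := hχ.sq
  rw [sq] at h
  exact (eq_inv_of_mul_eq_one_left h).symm

theorem ad_sq {χ : DirichletCharacter ℂ q} (hχ : PQ χ) {a : ZMod q} (ha : IsUnit a) :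
    χ a * χ a = 1 := by
  have h := congrArg (fun ψ : DirichletCharacter ℂ q => ψ a) hχ.sq
  simp only [sq, MulChar.mul_apply] at h
  rw [h, MulChar.one_apply ha]

theorem ad_real {χ : DirichletCharacter ℂ q} (hχ : PQ χ) (a : ZMod q) :
    (((χ a).re : ℝ) : ℂ) = χ a := by
  by_cases ha : IsUnit a
  · rcases mul_self_eq_one_iff.1 (ad_sq hχ ha) with h | h <;> rw [h] <;> simp
  · rw [MulChar.map_nonunit _ ha]
    simp

theorem ad_char {χ : DirichletCharacter ℂ q} (hχ : PQ χ) {M : ℕ} (hM : 0 < M) (n : ℕ) :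
    ∑ j ∈ Finset.range (q * M), χ j *
      cexp (2 * Real.pi * Complex.I * n * (((j : ℝ) / ((q * M : ℕ) : ℝ) : ℝ) : ℂ)) =
      if M ∣ n then (M : ℂ) * χ ((n / M : ℕ) : ZMod q) * gaussSum χ ZMod.stdAddChar else 0 := by
  have hq : q ≠ 0 := NeZero.ne q
  have hqC : (q : ℂ) ≠ 0 := by exact_mod_cast hq
  have hMC : (M : ℂ) ≠ 0 := by exact_mod_cast hM.ne'
  have h1 : ∀ l i : ℕ, χ ((q * l + i : ℕ) : ZMod q) *
      cexp (2 * Real.pi * Complex.I * n * ((((q * l + i : ℕ) : ℝ) / ((q * M : ℕ) : ℝ) : ℝ) : ℂ)) =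
      cexp (2 * Real.pi * Complex.I * n * (((l : ℝ) / M : ℝ) : ℂ)) *
        (χ i * cexp (2 * Real.pi * Complex.I * n * i / (q * M))) := by
    intro l i
    have e1 : ((q * l + i : ℕ) : ZMod q) = (i : ZMod q) := by
      push_cast
      rw [ZMod.natCast_self]
      ring
    have e2 : 2 * Real.pi * Complex.I * n * ((((q * l + i : ℕ) : ℝ) / ((q * M : ℕ) : ℝ) : ℝ) : ℂ) =
        2 * Real.pi * Complex.I * n * (((l : ℝ) / M : ℝ) : ℂ) +
          2 * Real.pi * Complex.I * n * i / (q * M) := by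
      push_cast
      field_simp
    rw [e1, e2, Complex.exp_add]
    ring
  rw [ad_range_mul, Finset.sum_congr rfl (fun l _ => Finset.sum_congr rfl (fun i _ => h1 l i))]
  have h0 : ∀ l ∈ Finset.range M, ∑ i ∈ Finset.range q,
      cexp (2 * Real.pi * Complex.I * n * (((l : ℝ) / M : ℝ) : ℂ)) *
        (χ i * cexp (2 * Real.pi * Complex.I * n * i / (q * M))) =
      cexp (2 * Real.pi * Complex.I * n * (((l : ℝ) / M : ℝ) : ℂ)) *
        ∑ i ∈ Finset.range q, χ i * cexp (2 * Real.pi * Complex.I * n * i / (q * M)) :=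
    fun l _ => (Finset.mul_sum _ _ _).symm
  rw [Finset.sum_congr rfl h0, ← Finset.sum_mul, GIH_orth hM n]
  by_cases hd : M ∣ n
  · rw [if_pos hd, if_pos hd]
    obtain ⟨m, rfl⟩ := hd
    rw [Nat.mul_div_cancel_left m hM, mul_assoc (M : ℂ)]
    congr 1
    have h2 : ∀ i : ℕ, χ (i : ZMod q) *
        cexp (2 * Real.pi * Complex.I * ((M * m : ℕ) : ℂ) * i / (q * M)) =
        χ (i : ZMod q) * (ZMod.stdAddChar.mulShift (m : ZMod q)) (i : ZMod q) := by
      intro i
      rw [AddChar.mulShift_apply]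
      have h3 : ((m : ZMod q) * (i : ZMod q)) = (((m * i : ℕ) : ℤ) : ZMod q) := by
        push_cast
        rfl
      rw [h3, ZMod.stdAddChar_coe]
      congr 2
      push_cast
      field_simp
    rw [Finset.sum_congr rfl (fun i _ => h2 i),
      ad_range_zmod (fun a => χ a * (ZMod.stdAddChar.mulShift (m : ZMod q)) a)]
    have h3 := gaussSum_mulShift_of_isPrimitive (e := ZMod.stdAddChar) hχ.prim (m : ZMod q)
    rw [ad_inv hχ] at h3
    exact h3
  · rw [if_neg hd, if_neg hd, zero_mul]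

end chars

section
variable {N : ℕ} [Fact N.Prime] {q : ℕ} [NeZero q]

/-- the twisted sum over all fractions with denominator `q M` -/
noncomputable def ad_G {N q : ℕ} (χ : DirichletCharacter ℂ q) (f : S2 N) (M : ℕ) (v : ℝ) : ℂ :=
  ∑ j ∈ Finset.range (q * M), χ j * ev f ((j : ℝ) / ((q * M : ℕ) : ℝ)) v

theorem ad_hasSum (f : S2 N) {χ : DirichletCharacter ℂ q} (hχ : PQ χ) {M : ℕ} (hM : 0 < M) {v : ℝ}
    (hv : 0 < v) :
    HasSum (fun m : ℕ => gaussSum χ ZMod.stdAddChar * ((M : ℂ) * χ m * co f (M * m) *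
      (Real.exp (-2 * Real.pi * (M * m : ℕ) * v) : ℂ))) (ad_G χ f M v) := by
  have h1 : HasSum (fun n : ℕ => ∑ j ∈ Finset.range (q * M), χ j * (co f n *
      cexp (2 * Real.pi * Complex.I * n * (((j : ℝ) / ((q * M : ℕ) : ℝ) : ℝ) : ℂ)) *
      (Real.exp (-2 * Real.pi * n * v) : ℂ))) (ad_G χ f M v) :=
    hasSum_sum (fun j _ => (GIH_ev_sum f ((j : ℝ) / ((q * M : ℕ) : ℝ)) hv).mul_left (χ j))
  have h2 : (fun n : ℕ => ∑ j ∈ Finset.range (q * M), χ j * (co f n *
      cexp (2 * Real.pi * Complex.I * n * (((j : ℝ) / ((q * M : ℕ) : ℝ) : ℝ) : ℂ)) *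
      (Real.exp (-2 * Real.pi * n * v) : ℂ))) = fun n : ℕ =>
        (if M ∣ n then (M : ℂ) * χ ((n / M : ℕ) : ZMod q) * gaussSum χ ZMod.stdAddChar else 0) *
        (co f n * (Real.exp (-2 * Real.pi * n * v) : ℂ)) := by
    funext n
    rw [← ad_char hχ hM n, Finset.sum_mul]
    apply Finset.sum_congr rfl
    intro j _
    ring
  rw [h2] at h1
  have hinj : Function.Injective (fun k : ℕ => M * k) := fun a b hab =>
    Nat.eq_of_mul_eq_mul_left hM hab
  have h3 := (Function.Injective.hasSum_iff hinj (f := fun n : ℕ =>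
        (if M ∣ n then (M : ℂ) * χ ((n / M : ℕ) : ZMod q) * gaussSum χ ZMod.stdAddChar else 0) *
        (co f n * (Real.exp (-2 * Real.pi * n * v) : ℂ))) (a := ad_G χ f M v) (by
    intro x hx
    have : ¬ M ∣ x := by
      rintro ⟨k, rfl⟩
      exact hx ⟨k, rfl⟩
    simp [this])).mpr h1
  refine GIH_congr (fun k => ?_) h3
  simp only [Function.comp_apply, dvd_mul_right, if_true, Nat.mul_div_cancel_left k hM]
  ring

/-- one divisor -/
theorem ad_one (f : S2 N) {χ : DirichletCharacter ℂ q} (hχ : PQ χ) {M d : ℕ} (hM : 0 < M)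
    (hd : 0 < d) {v : ℝ} (hv : 0 < v) :
    HasSum (fun n : ℕ => if d ∣ n then gaussSum χ ZMod.stdAddChar * ((d : ℂ) *
      χ ((n / d : ℕ) : ZMod q) * co f (M * (n / d)) * (Real.exp (-2 * Real.pi * n * v) : ℂ)) else 0)
      ((d : ℂ) / M * ad_G χ f M ((d : ℝ) / M * v)) := by
  have hMR : (M : ℝ) ≠ 0 := by exact_mod_cast hM.ne'
  have hMC : (M : ℂ) ≠ 0 := by exact_mod_cast hM.ne'
  have hdR : (0 : ℝ) < d := by exact_mod_cast hd
  have hMR' : (0 : ℝ) < M := by exact_mod_cast hM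
  have h1 := (ad_hasSum f hχ hM (v := (d : ℝ) / M * v) (by positivity)).mul_left ((d : ℂ) / M)
  have hinj : Function.Injective (fun k : ℕ => d * k) := fun x y hxy =>
    Nat.eq_of_mul_eq_mul_left hd hxy
  refine (Function.Injective.hasSum_iff hinj ?_).mp ?_
  · intro x hx
    have : ¬ d ∣ x := by
      rintro ⟨k, rfl⟩
      exact hx ⟨k, rfl⟩
    simp [this]
  · refine GIH_congr ?_ h1
    intro k
    simp only [Function.comp_apply, dvd_mul_right, if_true, Nat.mul_div_cancel_left k hd]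
    have e2 : -2 * Real.pi * ((M * k : ℕ) : ℝ) * ((d : ℝ) / M * v) =
        -2 * Real.pi * ((d * k : ℕ) : ℝ) * v := by
      push_cast
      field_simp
    rw [e2]
    field_simp

theorem ad_unit {e : ℕ} (heq : e.Coprime q) {d : ℕ} (hd : d ∣ e) : IsUnit (d : ZMod q) :=
  (ZMod.isUnit_iff_coprime d q).2 (Nat.Coprime.coprime_dvd_left hd heq)

/-- the Hecke relation for the sums over all fractions -/
theorem ad_rel {f : S2 N} (hf : IsNew f) {χ : DirichletCharacter ℂ q} (hχ : PQ χ) {k e : ℕ}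
    (hk : 1 ≤ k) (hkq : k.primeFactors ⊆ q.primeFactors) (he : 1 ≤ e) (heq : e.Coprime q)
    (heN : e.Coprime N) {v : ℝ} (hv : 0 < v) :
    χ e * co f (k * e) * ad_G χ f 1 v = ∑ d ∈ e.divisors, χ ((e / d : ℕ) : ZMod q) *
      (((d : ℂ) / ((k * (e / d) : ℕ) : ℂ)) *
      ad_G χ f (k * (e / d)) ((d : ℝ) / ((k * (e / d) : ℕ) : ℝ) * v)) := by
  have h1 : HasSum (fun n : ℕ => ∑ d ∈ e.divisors, χ ((e / d : ℕ) : ZMod q) *
      (if d ∣ n then gaussSum χ ZMod.stdAddChar * ((d : ℂ) *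
      χ ((n / d : ℕ) : ZMod q) * co f (k * (e / d) * (n / d)) *
        (Real.exp (-2 * Real.pi * n * v) : ℂ)) else 0))
      (∑ d ∈ e.divisors, χ ((e / d : ℕ) : ZMod q) * (((d : ℂ) / ((k * (e / d) : ℕ) : ℂ)) *
      ad_G χ f (k * (e / d)) ((d : ℝ) / ((k * (e / d) : ℕ) : ℝ) * v))) := by
    apply hasSum_sum
    intro d hd
    have hde : d ∣ e := Nat.dvd_of_mem_divisors hd
    have hd0 : 0 < d := Nat.pos_of_mem_divisors hd
    have ha0 : 0 < e / d := Nat.div_pos (Nat.le_of_dvd he hde) hd0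
    exact (ad_one f hχ (Nat.mul_pos hk ha0) hd0 hv).mul_left _
  have h2 := (ad_hasSum f hχ one_pos hv).mul_left (χ e * co f (k * e))
  refine HasSum.unique h2 (GIH_congr ?_ h1)
  intro n
  have hcopk : ∀ m : ℕ, m.Coprime q → k.Coprime m := by
    intro m hm
    refine Nat.Coprime.symm (Nat.coprime_of_dvd fun p hp hpm hpk => ?_)
    have h3 : p ∈ q.primeFactors := hkq (Nat.mem_primeFactors.2 ⟨hp, hpk, by omega⟩)
    have h4 : p ∣ q := Nat.dvd_of_mem_primeFactors h3
    exact hp.one_lt.ne' (Nat.dvd_one.1 (hm ▸ Nat.dvd_gcd hpm h4))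
  have hkef : co f (k * e) = co f k * co f e := hf.mul k e (hcopk e heq)
  have h3 := hecke_all hf heN n
  have h4 : e.divisors.filter (fun d => d ∣ n) = (Nat.gcd e n).divisors := by
    ext c
    rw [Finset.mem_filter, Nat.mem_divisors, Nat.mem_divisors, Nat.dvd_gcd_iff]
    constructor
    · rintro ⟨⟨h4, h5⟩, h6⟩
      exact ⟨⟨h4, h6⟩, fun h => h5 (Nat.eq_zero_of_gcd_eq_zero_left h)⟩
    · rintro ⟨⟨h4, h6⟩, h5⟩
      exact ⟨⟨h4, by omega⟩, h6⟩
  have h5 : ∀ d ∈ e.divisors, χ ((e / d : ℕ) : ZMod q) *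
      (if d ∣ n then gaussSum χ ZMod.stdAddChar * ((d : ℂ) *
      χ ((n / d : ℕ) : ZMod q) * co f (k * (e / d) * (n / d)) *
        (Real.exp (-2 * Real.pi * n * v) : ℂ)) else 0) =
      if d ∣ n then gaussSum χ ZMod.stdAddChar * (χ e * χ n * co f k *
        (Real.exp (-2 * Real.pi * n * v) : ℂ)) * ((d : ℂ) * co f (e * n / d ^ 2)) else 0 := by
    intro d hd
    have hde : d ∣ e := Nat.dvd_of_mem_divisors hd
    have hd0 : 0 < d := Nat.pos_of_mem_divisors hd
    by_cases hdn : d ∣ n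
    · rw [if_pos hdn, if_pos hdn]
      have hu := ad_sq hχ (ad_unit heq hde)
      have e1 : (e : ZMod q) = (d : ZMod q) * ((e / d : ℕ) : ZMod q) := by
        rw [← Nat.cast_mul, Nat.mul_div_cancel' hde]
      have e2 : (n : ZMod q) = (d : ZMod q) * ((n / d : ℕ) : ZMod q) := by
        rw [← Nat.cast_mul, Nat.mul_div_cancel' hdn]
      have e3 : e * n / d ^ 2 = e / d * (n / d) := by
        rw [sq, Nat.div_mul_div_comm hde hdn]
      have e4 : χ (e : ZMod q) * χ (n : ZMod q) = χ ((e / d : ℕ) : ZMod q) *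
          χ ((n / d : ℕ) : ZMod q) := by
        rw [e1, e2, map_mul, map_mul]
        linear_combination (χ ((e / d : ℕ) : ZMod q) * χ ((n / d : ℕ) : ZMod q)) * hu
      by_cases hn : (n / d).Coprime q
      · have e5 : co f (k * (e / d) * (n / d)) = co f k * co f (e / d * (n / d)) := by
          rw [mul_assoc]
          exact hf.mul k _ (hcopk _ (Nat.Coprime.mul_left
            (Nat.Coprime.coprime_dvd_left (Nat.div_dvd_of_dvd hde) heq) hn))
        rw [e3, e5, e4]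
        ring
      · have e6 : χ ((n / d : ℕ) : ZMod q) = 0 :=
          MulChar.map_nonunit _ (fun h => hn ((ZMod.isUnit_iff_coprime _ _).1 h))
        rw [e4, e6]
        ring
    · rw [if_neg hdn, if_neg hdn, mul_zero]
  rw [Finset.sum_congr rfl h5, ← Finset.sum_filter, h4, ← Finset.mul_sum, ← h3, hkef, one_mul,
    Nat.cast_one, one_mul]
  ring

theorem ad_intG {f : S2 N} (hf : IsNew f) (h1 : co f N = 1) (χ : DirichletCharacter ℂ q) {M : ℕ}
    (hM : 0 < M) (hMN : (q * M).Coprime N) :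
    IntegrableOn (fun v : ℝ => ad_G χ f M v) (Set.Ioi 0) := by
  unfold ad_G
  exact MeasureTheory.integrable_finsetSum _ (fun j _ =>
    (GIH_int hf h1 (Nat.mul_pos (Nat.pos_of_ne_zero (NeZero.ne q)) hM) hMN j).const_mul _)

/-- the total integral -/
noncomputable def ad_J {N q : ℕ} (χ : DirichletCharacter ℂ q) (f : S2 N) (M : ℕ) : ℂ :=
  ∫ v in Set.Ioi (0 : ℝ), ad_G χ f M v

/-- the integrals over the reduced fractions -/
noncomputable def ad_I {N q : ℕ} (χ : DirichletCharacter ℂ q) (f : S2 N) (c : ℕ) (V : ℝ) : ℂ :=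
  ∑ j ∈ RR c, χ j * ∫ v in Set.Ioi V, ev f ((j : ℝ) / (c : ℝ)) v

theorem ad_total {f : S2 N} (hf : IsNew f) (h1 : co f N = 1) {χ : DirichletCharacter ℂ q}
    (hχ : PQ χ) {k e : ℕ} (hk : 1 ≤ k) (hkq : k.primeFactors ⊆ q.primeFactors) (he : 1 ≤ e)
    (heq : e.Coprime q) (heN : (q * (k * e)).Coprime N) :
    χ e * co f (k * e) * ad_J χ f 1 =
      ∑ d ∈ e.divisors, χ ((e / d : ℕ) : ZMod q) * ad_J χ f (k * (e / d)) := by
  have heN' : e.Coprime N := Nat.Coprime.coprime_dvd_left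
    ((dvd_mul_left e k).trans (dvd_mul_left (k * e) q)) heN
  have h2 : ∫ v in Set.Ioi (0 : ℝ), χ e * co f (k * e) * ad_G χ f 1 v =
      ∫ v in Set.Ioi (0 : ℝ), ∑ d ∈ e.divisors, χ ((e / d : ℕ) : ZMod q) *
      (((d : ℂ) / ((k * (e / d) : ℕ) : ℂ)) *
      ad_G χ f (k * (e / d)) ((d : ℝ) / ((k * (e / d) : ℕ) : ℝ) * v)) :=
    setIntegral_congr_fun measurableSet_Ioi (fun v hv => ad_rel hf hχ hk hkq he heq heN' hv)
  rw [integral_const_mul] at h2
  unfold ad_J
  rw [h2, integral_finsetSum]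
  · apply Finset.sum_congr rfl
    intro d hd
    have hde : d ∣ e := Nat.dvd_of_mem_divisors hd
    have hd0 : 0 < d := Nat.pos_of_mem_divisors hd
    have ha0 : 0 < e / d := Nat.div_pos (Nat.le_of_dvd he hde) hd0
    have hM0 : 0 < k * (e / d) := Nat.mul_pos hk ha0
    have hdR : (0 : ℝ) < d := by exact_mod_cast hd0
    have haR : (0 : ℝ) < ((k * (e / d) : ℕ) : ℝ) := by exact_mod_cast hM0
    have hdC : (d : ℂ) ≠ 0 := by exact_mod_cast hd0.ne'
    have haC : ((k * (e / d) : ℕ) : ℂ) ≠ 0 := by exact_mod_cast hM0.ne'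
    rw [integral_const_mul, integral_const_mul,
      integral_comp_mul_left_Ioi (fun v => ad_G χ f (k * (e / d)) v) 0
      (b := (d : ℝ) / ((k * (e / d) : ℕ) : ℝ)) (by positivity), mul_zero, Complex.real_smul]
    generalize ((k * (e / d) : ℕ)) = M at haC haR
    push_cast
    field_simp
  · intro d hd
    have hde : d ∣ e := Nat.dvd_of_mem_divisors hd
    have hd0 : 0 < d := Nat.pos_of_mem_divisors hd
    have ha0 : 0 < e / d := Nat.div_pos (Nat.le_of_dvd he hde) hd0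
    have hM0 : 0 < k * (e / d) := Nat.mul_pos hk ha0
    have hdR : (0 : ℝ) < d := by exact_mod_cast hd0
    have haR : (0 : ℝ) < ((k * (e / d) : ℕ) : ℝ) := by exact_mod_cast hM0
    have hcop : (q * (k * (e / d))).Coprime N := Nat.Coprime.coprime_dvd_left
      (Nat.mul_dvd_mul_left q (Nat.mul_dvd_mul_left k (Nat.div_dvd_of_dvd hde))) heN
    have i2 := ad_intG hf h1 χ hM0 hcop
    have := (integrableOn_Ioi_comp_mul_left_iff (fun v => ad_G χ f (k * (e / d)) v) 0
      (a := (d : ℝ) / ((k * (e / d) : ℕ) : ℝ)) (by positivity)).mpr (by rw [mul_zero]; exact i2)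
    exact (this.const_mul _).const_mul _

/-- every fraction with denominator `e` in lowest terms -/
theorem ad_reduced {e : ℕ} (he : 0 < e) (F : ℕ → ℂ) :
    ∑ j ∈ Finset.range e, F j =
      ∑ d ∈ e.divisors, ∑ j ∈ RR d, F (e / d * j) := by
  unfold RR
  rw [Finset.sum_sigma']
  symm
  refine Finset.sum_nbij' (fun x : (_ : ℕ) × ℕ => e / x.1 * x.2)
    (fun a : ℕ => (⟨e / e.gcd a, a / e.gcd a⟩ : (_ : ℕ) × ℕ)) ?_ ?_ ?_ ?_ ?_
  · rintro ⟨d, j⟩ hx
    rw [Finset.mem_sigma, Finset.mem_filter, Finset.mem_range] at hx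
    obtain ⟨h1, h2, _⟩ := hx
    have h4 : d ∣ e := Nat.dvd_of_mem_divisors h1
    have h5 : 0 < e / d := Nat.div_pos (Nat.le_of_dvd he h4) (Nat.pos_of_dvd_of_pos h4 he)
    rw [Finset.mem_range]
    calc e / d * j < e / d * d := Nat.mul_lt_mul_of_pos_left h2 h5
      _ = e := Nat.div_mul_cancel h4
  · intro a ha
    rw [Finset.mem_range] at ha
    have hg : 0 < e.gcd a := Nat.gcd_pos_of_pos_left a he
    rw [Finset.mem_sigma, Finset.mem_filter, Finset.mem_range, Nat.mem_divisors]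
    refine ⟨⟨Nat.div_dvd_of_dvd (Nat.gcd_dvd_left e a), he.ne'⟩, ?_, ?_⟩
    · exact Nat.div_lt_div_of_lt_of_dvd (Nat.gcd_dvd_left e a) ha
    · exact Nat.coprime_div_gcd_div_gcd hg
  · rintro ⟨d, j⟩ hx
    rw [Finset.mem_sigma, Finset.mem_filter, Finset.mem_range] at hx
    obtain ⟨h1, h2, h3⟩ := hx
    have h4 : d ∣ e := Nat.dvd_of_mem_divisors h1
    obtain ⟨k, hk⟩ := h4
    have hd : 0 < d := Nat.pos_of_dvd_of_pos ⟨k, hk⟩ he
    have hk0 : 0 < k := by
      rcases Nat.eq_zero_or_pos k with h0 | h0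
      · rw [h0, mul_zero] at hk
        omega
      · exact h0
    have h5 : e / d = k := by rw [hk]; exact Nat.mul_div_cancel_left k hd
    have h6 : e.gcd (k * j) = k := by
      rw [hk, mul_comm d k, Nat.gcd_mul_left, h3, mul_one]
    show (⟨e / e.gcd (e / d * j), (e / d * j) / e.gcd (e / d * j)⟩ : (_ : ℕ) × ℕ) = ⟨d, j⟩
    rw [h5, h6, Nat.mul_div_cancel_left j hk0, hk, Nat.mul_div_cancel d hk0]
  · intro a ha
    show e / (e / e.gcd a) * (a / e.gcd a) = a
    rw [Nat.div_div_self (Nat.gcd_dvd_left e a) he.ne', Nat.mul_div_cancel' (Nat.gcd_dvd_right e a)]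
  · rintro ⟨d, j⟩ _
    rfl

/-- the twisted sum over all fractions in terms of reduced fractions -/
theorem ad_J_eq {f : S2 N} (hf : IsNew f) (h1 : co f N = 1) (χ : DirichletCharacter ℂ q) {k a : ℕ}
    (hk : 1 ≤ k) (hkq : k.primeFactors ⊆ q.primeFactors) (ha : 1 ≤ a) (haq : a.Coprime q)
    (haN : (q * (k * a)).Coprime N) :
    ad_J χ f (k * a) = ∑ d ∈ a.divisors, χ ((a / d : ℕ) : ZMod q) * ad_I χ f (q * (k * d)) 0 := by
  have hq0 : 0 < q := Nat.pos_of_ne_zero (NeZero.ne q)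
  have hM0 : 0 < k * a := Nat.mul_pos hk ha
  have hc0 : 0 < q * (k * a) := Nat.mul_pos hq0 hM0
  have hint : ∀ j : ℕ, IntegrableOn (fun v : ℝ => ev f ((j : ℝ) / ((q * (k * a) : ℕ) : ℝ)) v)
    (Set.Ioi 0) := fun j => GIH_int hf h1 hc0 haN j
  unfold ad_J ad_G
  rw [integral_finsetSum _ (fun j _ => (hint j).const_mul _)]
  have h2 : ∀ j ∈ Finset.range (q * (k * a)), ∫ v in Set.Ioi (0 : ℝ), χ j *
      ev f ((j : ℝ) / ((q * (k * a) : ℕ) : ℝ)) v = χ j * ∫ v in Set.Ioi (0 : ℝ),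
      ev f ((j : ℝ) / ((q * (k * a) : ℕ) : ℝ)) v := fun j _ => integral_const_mul _ _
  rw [Finset.sum_congr rfl h2, ad_reduced hc0 (fun j => χ j * ∫ v in Set.Ioi (0 : ℝ),
      ev f ((j : ℝ) / ((q * (k * a) : ℕ) : ℝ)) v)]
  have h3 : ∀ D ∈ (q * (k * a)).divisors, ∑ j ∈ RR D,
      χ ((q * (k * a) / D * j : ℕ) : ZMod q) * ∫ v in Set.Ioi (0 : ℝ),
        ev f (((q * (k * a) / D * j : ℕ) : ℝ) / ((q * (k * a) : ℕ) : ℝ)) v =
      χ ((q * (k * a) / D : ℕ) : ZMod q) * ad_I χ f D 0 := by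
    intro D hD
    have hDd : D ∣ q * (k * a) := Nat.dvd_of_mem_divisors hD
    have hD0 : 0 < D := Nat.pos_of_mem_divisors hD
    unfold ad_I
    rw [Finset.mul_sum]
    refine Finset.sum_congr rfl fun j _ => ?_
    obtain ⟨b, hb⟩ := hDd
    have hb0 : b ≠ 0 := by
      rintro rfl
      rw [mul_zero] at hb
      omega
    have e1 : q * (k * a) / D = b := by rw [hb]; exact Nat.mul_div_cancel_left b hD0
    rw [e1, hb, Nat.cast_mul, map_mul, mul_assoc]
    have e2 : ((b * j : ℕ) : ℝ) / ((D * b : ℕ) : ℝ) = (j : ℝ) / D := by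
      have hbR : (b : ℝ) ≠ 0 := by exact_mod_cast hb0
      have hDR : (D : ℝ) ≠ 0 := by exact_mod_cast hD0.ne'
      push_cast
      field_simp
    rw [e2]
  rw [Finset.sum_congr rfl h3]
  -- only the multiples of `q k` contribute
  symm
  have hinj : Set.InjOn (fun d : ℕ => q * (k * d)) (a.divisors : Set ℕ) := by
    intro x _ y _ hxy
    exact Nat.eq_of_mul_eq_mul_left hk (Nat.eq_of_mul_eq_mul_left hq0 hxy)
  have h4 : ∀ d ∈ a.divisors, χ ((a / d : ℕ) : ZMod q) * ad_I χ f (q * (k * d)) 0 =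
      χ ((q * (k * a) / (q * (k * d)) : ℕ) : ZMod q) * ad_I χ f (q * (k * d)) 0 := by
    intro d hd
    rw [Nat.mul_div_mul_left _ _ hq0, Nat.mul_div_mul_left _ _ hk]
  rw [Finset.sum_congr rfl h4, ← Finset.sum_image (s := a.divisors) (g := fun d => q * (k * d))
    (f := fun D => χ ((q * (k * a) / D : ℕ) : ZMod q) * ad_I χ f D 0) hinj]
  refine Finset.sum_subset ?_ ?_
  · intro D hD
    rw [Finset.mem_image] at hD
    obtain ⟨d, hd, rfl⟩ := hD
    rw [Nat.mem_divisors] at hd ⊢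
    exact ⟨Nat.mul_dvd_mul_left q (Nat.mul_dvd_mul_left k hd.1), hc0.ne'⟩
  · intro D hD hDn
    by_cases hu : IsUnit ((q * (k * a) / D : ℕ) : ZMod q)
    · exfalso
      apply hDn
      rw [ZMod.isUnit_iff_coprime] at hu
      have hDd : D ∣ q * (k * a) := Nat.dvd_of_mem_divisors hD
      have hD0 : 0 < D := Nat.pos_of_mem_divisors hD
      obtain ⟨b, hb⟩ := hDd
      have e1 : q * (k * a) / D = b := by rw [hb]; exact Nat.mul_div_cancel_left b hD0
      rw [e1] at hu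
      have hbk : b.Coprime k := by
        refine Nat.coprime_of_dvd fun p hp hpb hpk => ?_
        have h5 : p ∈ q.primeFactors := hkq (Nat.mem_primeFactors.2 ⟨hp, hpk, by omega⟩)
        have h6 : p ∣ q := Nat.dvd_of_mem_primeFactors h5
        exact hp.one_lt.ne' (Nat.dvd_one.1 (hu ▸ Nat.dvd_gcd hpb h6))
      have hba : b ∣ a := by
        have h7 : b ∣ q * (k * a) := ⟨D, by rw [hb]; ring⟩
        exact hbk.dvd_of_dvd_mul_left (hu.dvd_of_dvd_mul_left h7)
      obtain ⟨d, hd⟩ := hba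
      have hb0 : 0 < b := by
        rcases Nat.eq_zero_or_pos b with h | h
        · rw [h, zero_mul] at hd
          omega
        · exact h
      rw [Finset.mem_image]
      refine ⟨d, Nat.mem_divisors.2 ⟨⟨b, by rw [hd]; ring⟩, by omega⟩, ?_⟩
      have h8 : b * (q * (k * d)) = b * D := by
        calc b * (q * (k * d)) = q * (k * (b * d)) := by ring
          _ = q * (k * a) := by rw [← hd]
          _ = b * D := by rw [hb]; ring
      exact Nat.eq_of_mul_eq_mul_left hb0 h8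
    · rw [MulChar.map_nonunit _ hu, zero_mul]

/-- the central value of the twist -/
theorem ad_bx {f : S2 N} (hf : IsNew f) {χ : DirichletCharacter ℂ q} (hχ : PQ χ) :
    (bx χ f : ℂ) * gaussSum χ ZMod.stdAddChar = 4 * Real.pi * ad_I χ f q (rq N q) := by
  have hq0 : 0 < q := Nat.pos_of_ne_zero (NeZero.ne q)
  have hN0 : 0 < N := (Fact.out : N.Prime).pos
  have hV : 0 < rq N q := by
    unfold rq
    have : (0 : ℝ) < q := by exact_mod_cast hq0
    have : (0 : ℝ) < N := by exact_mod_cast hN0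
    positivity
  have h1 : ad_I χ f q (rq N q) = ∑ j ∈ Finset.range q, χ j *
      ∫ v in Set.Ioi (rq N q), ev f ((j : ℝ) / (q : ℝ)) v := by
    unfold ad_I RR
    rw [Finset.sum_filter]
    refine Finset.sum_congr rfl fun j _ => ?_
    by_cases hj : q.Coprime j
    · rw [if_pos hj]
    · rw [if_neg hj, MulChar.map_nonunit _ (fun h => hj
        ((ZMod.isUnit_iff_coprime _ _).1 h).symm), zero_mul]
  have h2 : HasSum (fun n : ℕ => ∑ j ∈ Finset.range q, χ j * (co f n *
      ((Real.exp (-2 * Real.pi * n * rq N q) / (2 * Real.pi * n) : ℝ) : ℂ) *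
      GEL_e n ((j : ℝ) / (q : ℝ)))) (∑ j ∈ Finset.range q, χ j *
      ∫ v in Set.Ioi (rq N q), ev f ((j : ℝ) / (q : ℝ)) v) :=
    hasSum_sum (fun j _ => (GEL_int f ((j : ℝ) / (q : ℝ)) hV).mul_left (χ j))
  have h3 : ∀ n : ℕ, 4 * Real.pi * ∑ j ∈ Finset.range q, χ j * (co f n *
      ((Real.exp (-2 * Real.pi * n * rq N q) / (2 * Real.pi * n) : ℝ) : ℂ) *
      GEL_e n ((j : ℝ) / (q : ℝ))) = 2 * gaussSum χ ZMod.stdAddChar *
      (((χ n).re * (co f n).re / n * Real.exp (-(2 * Real.pi * n / (q * Real.sqrt N))) : ℝ) : ℂ) := by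
    intro n
    have e0 := ad_char hχ one_pos n
    rw [if_pos (one_dvd n), Nat.div_one, Nat.cast_one, one_mul, mul_one] at e0
    have e1 : ∑ j ∈ Finset.range q, χ j * (co f n *
      ((Real.exp (-2 * Real.pi * n * rq N q) / (2 * Real.pi * n) : ℝ) : ℂ) *
      GEL_e n ((j : ℝ) / (q : ℝ))) = (co f n *
      ((Real.exp (-2 * Real.pi * n * rq N q) / (2 * Real.pi * n) : ℝ) : ℂ)) *
        (χ n * gaussSum χ ZMod.stdAddChar) := by
      rw [← e0, Finset.mul_sum]
      refine Finset.sum_congr rfl fun j _ => ?_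
      unfold GEL_e
      ring
    have e2 : (((co f n).re : ℝ) : ℂ) = co f n := by
      apply Complex.ext
      · simp
      · simp [new_real_pr hf n]
    have e3 : Real.exp (-2 * Real.pi * n * rq N q) =
        Real.exp (-(2 * Real.pi * n / (q * Real.sqrt N))) := by
      congr 1
      unfold rq
      ring
    rw [e1, e3]
    push_cast
    rw [ad_real hχ, e2]
    rcases Nat.eq_zero_or_pos n with hn | hn
    · subst hn
      simp
    · have hpi : (Real.pi : ℂ) ≠ 0 := by exact_mod_cast Real.pi_ne_zero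
      have hnC : (n : ℂ) ≠ 0 := by exact_mod_cast hn.ne'
      field_simp
      ring
  have h4 := h2.mul_left ((4 : ℂ) * Real.pi)
  rw [← h1] at h4
  have h5 := (GIH_congr (fun n => (h3 n).symm) h4).tsum_eq
  rw [← h5, tsum_mul_left]
  unfold bx
  push_cast
  ring

/-- the action of the Hecke operators on the central value of the twist -/
theorem tw_hecke {f : S2 N} (hf : IsNew f) (h1 : co f N = 1) {χ : DirichletCharacter ℂ q}
    (hχ : PQ χ) (hN : χ (-(N : ZMod q)) = 1) {k e : ℕ} (hk : 1 ≤ k)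
    (hkq : k.primeFactors ⊆ q.primeFactors) (he : 1 ≤ e) (heq : e.Coprime q)
    (heN : (q * (k * e)).Coprime N) :
    (bx χ f : ℂ) * (χ e * co f (k * e)) =
      4 * Real.pi / gaussSum χ ZMod.stdAddChar * ∑ d ∈ e.divisors,
        ((e / d).divisors.card : ℂ) * χ d * ∑ j ∈ RR (q * (k * d)),
          χ j * ∫ v in Set.Ioi (rq N (q * (k * d))),
            ev f ((j : ℝ) / ((q * (k * d) : ℕ) : ℝ)) v := by
  have hq0 : 0 < q := Nat.pos_of_ne_zero (NeZero.ne q)
  have hτ : gaussSum χ ZMod.stdAddChar ≠ 0 := by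
    intro h
    have h2 := gauss_norm hχ
    rw [h, norm_zero] at h2
    have h3 : (0 : ℝ) < q := by exact_mod_cast hq0
    norm_num at h2
    linarith
  have hqN : q.Coprime N := Nat.Coprime.coprime_dvd_left (dvd_mul_right q (k * e)) heN
  have hpi : (Real.pi : ℂ) ≠ 0 := by exact_mod_cast Real.pi_ne_zero
  -- the untwisted central value
  have hJ1 : ad_J χ f 1 = 2 * ad_I χ f q (rq N q) := by
    have h2 := ad_J_eq hf h1 χ (k := 1) (a := 1) le_rfl (by simp) le_rfl (Nat.coprime_one_left q)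
      (by rw [mul_one, mul_one]; exact hqN)
    rw [mul_one, Nat.divisors_one, Finset.sum_singleton, Nat.div_one, Nat.cast_one, map_one,
      one_mul, mul_one, mul_one] at h2
    rw [h2]
    exact (tw_fold hf h1 hχ hN hq0 dvd_rfl hqN).2
  have hb := ad_bx hf hχ
  have htot := ad_total hf h1 hχ hk hkq he heq heN
  -- reduced fractions
  have h3 : ∑ d ∈ e.divisors, χ ((e / d : ℕ) : ZMod q) * ad_J χ f (k * (e / d)) =
      ∑ a ∈ e.divisors, ∑ d ∈ a.divisors, χ (d : ZMod q) * ad_I χ f (q * (k * d)) 0 := by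
    rw [Nat.sum_div_divisors e (fun a => χ (a : ZMod q) * ad_J χ f (k * a))]
    refine Finset.sum_congr rfl fun a ha => ?_
    have hae : a ∣ e := Nat.dvd_of_mem_divisors ha
    have ha0 : 0 < a := Nat.pos_of_mem_divisors ha
    rw [ad_J_eq hf h1 χ hk hkq ha0 (Nat.Coprime.coprime_dvd_left hae heq)
      (Nat.Coprime.coprime_dvd_left (Nat.mul_dvd_mul_left q (Nat.mul_dvd_mul_left k hae)) heN),
      Finset.mul_sum]
    refine Finset.sum_congr rfl fun d hd => ?_
    have hda : d ∣ a := Nat.dvd_of_mem_divisors hd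
    have e1 : (a : ZMod q) = (d : ZMod q) * ((a / d : ℕ) : ZMod q) := by
      rw [← Nat.cast_mul, Nat.mul_div_cancel' hda]
    have e2 := ad_sq hχ (ad_unit heq ((Nat.div_dvd_of_dvd hda).trans hae))
    rw [e1, map_mul]
    linear_combination (χ (d : ZMod q) * ad_I χ f (q * (k * d)) 0) * e2
  rw [h3, GIH_swap he, hJ1] at htot
  -- halves
  have h4 : ∀ d ∈ e.divisors, ad_I χ f (q * (k * d)) 0 =
      2 * ∑ j ∈ RR (q * (k * d)), χ j * ∫ v in Set.Ioi (rq N (q * (k * d))),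
            ev f ((j : ℝ) / ((q * (k * d) : ℕ) : ℝ)) v := by
    intro d hd
    have hde : d ∣ e := Nat.dvd_of_mem_divisors hd
    have hd0 : 0 < d := Nat.pos_of_mem_divisors hd
    exact (tw_fold hf h1 hχ hN (Nat.mul_pos hq0 (Nat.mul_pos hk hd0)) (dvd_mul_right _ _)
      (Nat.Coprime.coprime_dvd_left (Nat.mul_dvd_mul_left q (Nat.mul_dvd_mul_left k hde)) heN)).2
  have h5 : ∑ d ∈ e.divisors, ((e / d).divisors.card : ℂ) *
      (χ (d : ZMod q) * ad_I χ f (q * (k * d)) 0) = 2 * ∑ d ∈ e.divisors,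
        ((e / d).divisors.card : ℂ) * χ d * ∑ j ∈ RR (q * (k * d)),
          χ j * ∫ v in Set.Ioi (rq N (q * (k * d))),
            ev f ((j : ℝ) / ((q * (k * d) : ℕ) : ℝ)) v := by
    rw [Finset.mul_sum]
    refine Finset.sum_congr rfl fun d hd => ?_
    rw [h4 d hd]
    ring
  rw [h5] at htot
  have h6 : χ e * co f (k * e) * ad_I χ f q (rq N q) = ∑ d ∈ e.divisors,
        ((e / d).divisors.card : ℂ) * χ d * ∑ j ∈ RR (q * (k * d)),
          χ j * ∫ v in Set.Ioi (rq N (q * (k * d))),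
            ev f ((j : ℝ) / ((q * (k * d) : ℕ) : ℝ)) v := by
    linear_combination htot / 2
  rw [← h6, div_mul_eq_mul_div, eq_div_iff hτ]
  linear_combination (χ e * co f (k * e)) * hb

end

end Pool.Agent.TK
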