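import Pool.Agent.Lib_helper41.TK.W.AC
import Pool.Agent.Lib_helper41.TK.W.AD
import Pool.Agent.Lib_helper68.KSLF.LMI
import Pool.Agent.Lib_helper68.KSLF.SRO

/-! TK, block AE. -/

set_option autoImplicit false

namespace Pool.Agent.TK

open Pool.Agent.LEV Pool.Agent.LVB Pool.Agent.KSL
open Pool.Agent.LK (PQ)
open Pool.Agent.FG61 (mu phi cc ff AA Lam)
open Complex MeasureTheory Filter Topology UpperHalfPlane ModularGroup ProbabilityTheory
open scoped MatrixGroups Modular ENNReal ModularForm ComplexConjugate ContDiff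
open scoped ArithmeticFunction.zeta ArithmeticFunction.Moebius ArithmeticFunction.sigma

/-! ### Sums over weights -/

theorem ae_yE {z M K e : ℕ} (h : yE z M K e ≠ 0) :
    rough z e ∧ 1 ≤ e ∧ Squarefree e ∧ (1 ≤ K → e ≤ K * M) := by
  unfold yE at h
  have hc : rough z e ∧ 1 ≤ e := by
    by_contra hc
    exact h (if_neg hc)
  have h4 : mu e * KSL.gE z M K e ≠ 0 := by
    rw [if_pos hc] at h
    intro h0
    apply h
    rw [h0, zero_div]
  have h5 : mu e ≠ 0 := by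
    intro h; apply h4; rw [h]; simp
  have h6 : KSL.gE z M K e ≠ 0 := by
    intro h; apply h4; rw [h]; simp
  refine ⟨hc.1, hc.2, ?_, ?_⟩
  · by_contra h
    apply h5
    unfold mu
    rw [ArithmeticFunction.moebius_eq_zero_of_not_squarefree h]
    simp
  · intro hK
    unfold KSL.gE at h6
    split_ifs at h6 with h9 h10
    · exact h9.trans (Nat.le_mul_of_pos_left _ hK)
    · unfold PK at h10
      rw [Finset.mem_filter, Finset.mem_Ioc] at h10
      exact h10.1.2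
    · exact absurd rfl h6

theorem ae_wC {q z M K r : ℕ} (hr : wC q z M K r ≠ 0) : rough z r ∧ 1 ≤ r ∧ r ≤ K * M := by
  unfold wC at hr
  obtain ⟨m, hm, h1⟩ := Finset.exists_ne_zero_of_sum_ne_zero hr
  rw [Finset.mem_filter, Finset.mem_Icc] at hm
  obtain ⟨h2, h3, _, h5⟩ := ae_yE h1
  have hr1 : 1 ≤ r := by
    rw [Nat.one_le_iff_ne_zero]
    intro h; rw [h] at h3; omega
  have hK : 1 ≤ K := by
    rw [Nat.one_le_iff_ne_zero]
    intro h; rw [h] at hm; omega
  exact ⟨fun p hp h => h2 p hp (h.mul_right _), hr1,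
    (Nat.le_mul_of_pos_right r (by omega)).trans (h5 hK)⟩

/-- sums over all weights split -/
theorem ae_sum {q z M K A : ℕ} {a : ℕ → ℝ} (ha : ∀ k, a k ≠ 0 → smooth z k ∧ k ≤ A)
    (F : ℕ → ℂ) : ∑ d ∈ Finset.Icc 1 (QA M K A), (wAC q z M K A a d : ℂ) * F d =
      ∑ u ∈ Finset.Icc 1 A, ∑ r ∈ Finset.Icc 1 (K * M),
        (al A a u : ℂ) * (wC q z M K r : ℂ) * F (u * r) := by
  rw [← Finset.sum_product']
  symm
  refine Finset.sum_bij_ne_zero (fun x _ _ => x.1 * x.2) ?_ ?_ ?_ ?_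
  · rintro ⟨u, r⟩ hx _
    rw [Finset.mem_product, Finset.mem_Icc, Finset.mem_Icc] at hx
    rw [Finset.mem_Icc]
    refine ⟨Nat.mul_pos hx.1.1 hx.2.1, ?_⟩
    unfold QA
    rw [mul_comm]
    exact Nat.mul_le_mul hx.2.2 hx.1.2
  · rintro ⟨u, r⟩ hx hx0 ⟨u', r'⟩ hx' hx0' h
    have h1 : al A a u ≠ 0 ∧ wC q z M K r ≠ 0 := by
      constructor
      · intro h0; apply hx0; simp only [h0]; simp
      · intro h0; apply hx0; simp only [h0]; simp
    have h1' : al A a u' ≠ 0 ∧ wC q z M K r' ≠ 0 := by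
      constructor
      · intro h0; apply hx0'; simp only [h0]; simp
      · intro h0; apply hx0'; simp only [h0]; simp
    have h2 := SRO_unique (al_supp ha h1.1).1 (ae_wC h1.2).1 (al_supp ha h1'.1).1
      (ae_wC h1'.2).1 (ae_wC h1.2).2.1 h
    exact Prod.ext h2.1 h2.2
  · intro d hd hd0
    rw [Finset.mem_Icc] at hd
    obtain ⟨h1, h2, h3, h4, h5⟩ := smp_rop (z := z) hd.1
    have h6 : al A a (smp z d) ≠ 0 ∧ wC q z M K (rop z d) ≠ 0 := by
      constructor
      · intro h0; apply hd0; unfold wAC; rw [h0]; simp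
      · intro h0; apply hd0; unfold wAC; rw [h0]; simp
    have h7 : (smp z d, rop z d) ∈ Finset.Icc 1 A ×ˢ Finset.Icc 1 (K * M) := by
      rw [Finset.mem_product, Finset.mem_Icc, Finset.mem_Icc]
      exact ⟨⟨Nat.pos_of_ne_zero h3.1, (al_supp ha h6.1).2⟩, h5, (ae_wC h6.2).2.2⟩
    refine ⟨(smp z d, rop z d), h7, ?_, h1⟩
    simp only [h1]
    unfold wAC at hd0
    push_cast at hd0
    exact hd0
  · rintro ⟨u, r⟩ hx hx0
    have h1 : al A a u ≠ 0 ∧ wC q z M K r ≠ 0 := by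
      constructor
      · intro h0; apply hx0; simp only [h0]; simp
      · intro h0; apply hx0; simp only [h0]; simp
    obtain ⟨h2, h3⟩ := smp_mul (al_supp ha h1.1).1 (ae_wC h1.2).1 (ae_wC h1.2).2.1
    simp only [wAC, h2, h3]
    push_cast
    rfl

/-- sums over multiples -/
theorem ae_mult (B : ℕ) (y : ℕ → ℝ) (hy : ∀ e, y e ≠ 0 → e ≤ B) (g : ℕ → ℂ) :
    ∑ r ∈ Finset.Icc 1 B, ((∑ m ∈ Finset.Icc 1 B, y (r * m) : ℝ) : ℂ) * g r =
      ∑ e ∈ Finset.Icc 1 B, (y e : ℂ) * ∑ r ∈ e.divisors, g r := by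
  have hL : ∑ r ∈ Finset.Icc 1 B, ((∑ m ∈ Finset.Icc 1 B, y (r * m) : ℝ) : ℂ) * g r =
      ∑ x ∈ (Finset.Icc 1 B) ×ˢ (Finset.Icc 1 B), (y (x.1 * x.2) : ℂ) * g x.1 := by
    rw [Finset.sum_product]
    refine Finset.sum_congr rfl (fun r _ => ?_)
    push_cast
    rw [Finset.sum_mul]
  have hR : ∑ e ∈ Finset.Icc 1 B, (y e : ℂ) * ∑ r ∈ e.divisors, g r =
      ∑ x ∈ (Finset.Icc 1 B).sigma (fun e => e.divisors), (y x.1 : ℂ) * g x.2 := by
    rw [Finset.sum_sigma]
    refine Finset.sum_congr rfl (fun e _ => ?_)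
    rw [Finset.mul_sum]
  rw [hL, hR, ← Finset.sum_filter_of_ne (p := fun x : ℕ × ℕ => x.1 * x.2 ≤ B)]
  · refine Finset.sum_nbij' (fun x => (⟨x.1 * x.2, x.1⟩ : Σ _ : ℕ, ℕ))
      (fun x => (x.2, x.1 / x.2)) ?_ ?_ ?_ ?_ ?_
    · rintro ⟨r, m⟩ hx
      simp only [Finset.mem_filter, Finset.mem_product, Finset.mem_Icc] at hx
      simp only [Finset.mem_sigma, Finset.mem_Icc, Nat.mem_divisors]
      obtain ⟨⟨⟨a1, a2⟩, ⟨b1, b2⟩⟩, c⟩ := hx
      refine ⟨⟨?_, c⟩, Dvd.intro m rfl, ?_⟩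
      · exact Nat.mul_pos a1 b1
      · have := Nat.mul_pos (show 0 < r from a1) (show 0 < m from b1)
        omega
    · rintro ⟨e, r⟩ hx
      simp only [Finset.mem_sigma, Finset.mem_Icc, Nat.mem_divisors] at hx
      simp only [Finset.mem_filter, Finset.mem_product, Finset.mem_Icc]
      obtain ⟨⟨a1, a2⟩, b, c⟩ := hx
      have h5 : r * (e / r) = e := Nat.mul_div_cancel' b
      have h6 : r ≤ e := Nat.le_of_dvd a1 b
      have h7 : 0 < r := Nat.pos_of_dvd_of_pos b a1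
      have h8 : 0 < e / r := Nat.div_pos h6 h7
      have h9 : e / r ≤ e := Nat.div_le_self e r
      rw [h5]
      refine ⟨⟨⟨h7, by omega⟩, ⟨h8, by omega⟩⟩, a2⟩
    · rintro ⟨r, m⟩ hx
      simp only [Finset.mem_filter, Finset.mem_product, Finset.mem_Icc] at hx
      simp only
      rw [Nat.mul_div_cancel_left m (by omega)]
    · rintro ⟨e, r⟩ hx
      simp only [Finset.mem_sigma, Finset.mem_Icc, Nat.mem_divisors] at hx
      simp only
      rw [Nat.mul_div_cancel' hx.2.1]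
    · rintro ⟨r, m⟩ _
      rfl
  · rintro ⟨r, m⟩ _ hne
    simp only at hne ⊢
    apply hy
    intro h0
    apply hne
    rw [h0]
    simp

theorem ae_multC (q z M K : ℕ) (g : ℕ → ℂ) :
    ∑ r ∈ Finset.Icc 1 (K * M), (wC q z M K r : ℂ) * g r =
      ∑ e ∈ (Finset.Icc 1 (K * M)).filter (fun e => e.Coprime q),
        (yE z M K e : ℂ) * ∑ r ∈ e.divisors, g r := by
  by_cases hK : K = 0
  · subst hK
    simp
  have h := ae_mult (K * M) (fun e => if e.Coprime q then yE z M K e else 0) (by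
    intro e he
    by_cases hc : e.Coprime q
    · rw [if_pos hc] at he
      exact (ae_yE he).2.2.2 (Nat.pos_of_ne_zero hK)
    · rw [if_neg hc] at he
      exact absurd rfl he) g
  have h1 : ∀ r ∈ Finset.Icc 1 (K * M), ((∑ m ∈ Finset.Icc 1 (K * M),
      (if (r * m).Coprime q then yE z M K (r * m) else 0) : ℝ) : ℂ) * g r =
      (wC q z M K r : ℂ) * g r := by
    intro r _
    unfold wC
    rw [Finset.sum_filter]
  rw [Finset.sum_congr rfl h1] at h
  rw [h, Finset.sum_filter]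
  refine Finset.sum_congr rfl fun e _ => ?_
  by_cases hc : e.Coprime q
  · rw [if_pos hc, if_pos hc]
  · rw [if_neg hc, if_neg hc]
    simp

section
variable {N : ℕ} [Fact N.Prime] {q : ℕ} [NeZero q]

/-! ### The linear functional -/

/-- the sum over one denominator -/
noncomputable def ae_G {N q : ℕ} (χ : DirichletCharacter ℂ q) (f : S2 N) (c : ℕ) : ℂ :=
  ∑ j ∈ RR c, χ j * ∫ v in Set.Ioi (rq N c), ev f ((j : ℝ) / (c : ℝ)) v

theorem ae_gl (f : S2 N) (χ : DirichletCharacter ℂ q) (v : ℕ → ℕ → ℝ) (B : ℕ) :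
    gl f (q * B) (tw χ v) = (gaussSum χ ZMod.stdAddChar)⁻¹ * ∑ m ∈ Finset.Icc 1 B,
      (v (qs q m) (qr q m) : ℂ) * χ (qr q m : ℕ) * ae_G χ f (q * m) := by
  have hq0 : 0 < q := Nat.pos_of_ne_zero (NeZero.ne q)
  unfold gl
  have hinj : Set.InjOn (fun m : ℕ => q * m) (Finset.Icc 1 B : Set ℕ) := by
    intro x _ y _ hxy
    exact Nat.eq_of_mul_eq_mul_left hq0 hxy
  have h1 : ∑ c ∈ Finset.Icc 1 (q * B), ∑ j ∈ RR c, tw χ v c j *
      ∫ v in Set.Ioi (rq N c), ev f ((j : ℝ) / c) v =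
      ∑ c ∈ (Finset.Icc 1 B).image (fun m => q * m), ∑ j ∈ RR c, tw χ v c j *
      ∫ v in Set.Ioi (rq N c), ev f ((j : ℝ) / c) v := by
    symm
    refine Finset.sum_subset ?_ ?_
    · intro c hc
      rw [Finset.mem_image] at hc
      obtain ⟨m, hm, rfl⟩ := hc
      rw [Finset.mem_Icc] at hm ⊢
      exact ⟨Nat.mul_pos hq0 hm.1, Nat.mul_le_mul_left q hm.2⟩
    · intro c hc hcn
      refine Finset.sum_eq_zero fun j _ => ?_
      have hqc : ¬ q ∣ c := by
        rintro ⟨m, rfl⟩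
        apply hcn
        rw [Finset.mem_Icc] at hc
        rw [Finset.mem_image]
        refine ⟨m, ?_, rfl⟩
        rw [Finset.mem_Icc]
        constructor
        · by_contra h0
          have : m = 0 := by omega
          rw [this, mul_zero] at hc
          omega
        · exact Nat.le_of_mul_le_mul_left hc.2 hq0
      unfold tw
      rw [if_neg hqc, zero_mul]
  rw [h1, Finset.sum_image hinj, Finset.mul_sum]
  refine Finset.sum_congr rfl fun m _ => ?_
  unfold ae_G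
  rw [Finset.mul_sum, Finset.mul_sum]
  refine Finset.sum_congr rfl fun j _ => ?_
  unfold tw
  rw [if_pos (dvd_mul_right q m), Nat.mul_div_cancel_left m hq0]
  ring

theorem ae_QI {X k : ℕ} (h : k ∈ QI q X) : 1 ≤ k ∧ k ≤ X ∧ k.primeFactors ⊆ q.primeFactors := by
  unfold QI at h
  rw [Finset.mem_filter, Finset.mem_Icc] at h
  exact ⟨h.1.1, h.1.2, h.2⟩

theorem ae_split (χ : DirichletCharacter ℂ q) {z M K A X : ℕ} {a : ℕ → ℕ → ℝ}
    (ha : ∀ k m, a k m ≠ 0 → smooth z m ∧ m ≤ A ∧ m.Coprime q) (G : ℕ → ℂ) :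
    ∑ m ∈ Finset.Icc 1 (X * QA M K A), ((if qs q m ∈ QI q X then (1 / Real.sqrt (qs q m)) *
        wAC q z M K A (a (qs q m)) (qr q m) else 0 : ℝ) : ℂ) * χ (qr q m : ℕ) * G (q * m) =
      ∑ k ∈ QI q X, ((1 / Real.sqrt k : ℝ) : ℂ) * ∑ d ∈ Finset.Icc 1 (QA M K A),
        (wAC q z M K A (a k) d : ℂ) * (χ d * G (q * (k * d))) := by
  have hq0 : 0 < q := Nat.pos_of_ne_zero (NeZero.ne q)
  have h1 : ∑ k ∈ QI q X, ((1 / Real.sqrt k : ℝ) : ℂ) * ∑ d ∈ Finset.Icc 1 (QA M K A),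
        (wAC q z M K A (a k) d : ℂ) * (χ d * G (q * (k * d))) =
      ∑ x ∈ QI q X ×ˢ Finset.Icc 1 (QA M K A), ((1 / Real.sqrt x.1 : ℝ) : ℂ) *
        ((wAC q z M K A (a x.1) x.2 : ℂ) * (χ x.2 * G (q * (x.1 * x.2)))) := by
    rw [Finset.sum_product]
    refine Finset.sum_congr rfl fun k _ => ?_
    rw [Finset.mul_sum]
  rw [h1]
  symm
  have hcop : ∀ d : ℕ, χ (d : ZMod q) ≠ 0 → d.Coprime q := by
    intro d hd
    by_contra h
    exact hd (MulChar.map_nonunit _ (fun h' => h ((ZMod.isUnit_iff_coprime _ _).1 h')))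
  have hne : ∀ x : ℕ × ℕ, ((1 / Real.sqrt x.1 : ℝ) : ℂ) *
        ((wAC q z M K A (a x.1) x.2 : ℂ) * (χ x.2 * G (q * (x.1 * x.2)))) ≠ 0 →
      x.2.Coprime q := by
    intro x hx
    apply hcop
    intro h0
    apply hx
    rw [h0]
    simp
  refine Finset.sum_bij_ne_zero (fun x _ _ => x.1 * x.2) ?_ ?_ ?_ ?_
  · rintro ⟨k, d⟩ hx _
    rw [Finset.mem_product, Finset.mem_Icc] at hx
    obtain ⟨h2, h3, _⟩ := ae_QI hx.1
    rw [Finset.mem_Icc]
    exact ⟨Nat.mul_pos h2 hx.2.1, Nat.mul_le_mul h3 hx.2.2⟩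
  · rintro ⟨k, d⟩ hx hx0 ⟨k', d'⟩ hx' hx0' h
    rw [Finset.mem_product, Finset.mem_Icc] at hx hx'
    obtain ⟨h2, _, h4⟩ := ae_QI hx.1
    obtain ⟨h2', _, h4'⟩ := ae_QI hx'.1
    have e1 := qs_mul (q := q) hq0 h2 h4 hx.2.1 (hne _ hx0)
    have e2 := qs_mul (q := q) hq0 h2' h4' hx'.2.1 (hne _ hx0')
    have h5 : k * d = k' * d' := h
    rw [h5] at e1
    exact Prod.ext (e1.1.symm.trans e2.1) (e1.2.symm.trans e2.2)
  · intro m hm hm0
    rw [Finset.mem_Icc] at hm
    obtain ⟨h2, h3, h4, h5, h6⟩ := qs_qr (q := q) hq0 hm.1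
    have hQI : qs q m ∈ QI q X := by
      by_contra h0
      apply hm0
      rw [if_neg h0]
      simp
    rw [if_pos hQI] at hm0
    have hw : wAC q z M K A (a (qs q m)) (qr q m) ≠ 0 := by
      intro h0
      apply hm0
      rw [h0]
      simp
    have ha' : ∀ l, a (qs q m) l ≠ 0 → smooth z l ∧ l ≤ A := fun l hl =>
      ⟨(ha _ _ hl).1, (ha _ _ hl).2.1⟩
    have hle : qr q m ≤ QA M K A := by
      obtain ⟨g1, g2, g3, g4, g5⟩ := smp_rop (z := z) h6
      unfold wAC at hw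
      have g6 := (al_supp ha' (left_ne_zero_of_mul hw)).2
      have g7 := (ae_wC (right_ne_zero_of_mul hw)).2.2
      rw [← g1]
      unfold QA
      rw [mul_comm]
      exact Nat.mul_le_mul g7 g6
    have hmem : (qs q m, qr q m) ∈ QI q X ×ˢ Finset.Icc 1 (QA M K A) := by
      rw [Finset.mem_product, Finset.mem_Icc]
      exact ⟨hQI, h6, hle⟩
    refine ⟨(qs q m, qr q m), hmem, ?_, h2⟩
    simp only [h2]
    intro h0
    apply hm0
    rw [← h0]
    push_cast
    ring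
  · rintro ⟨k, d⟩ hx hx0
    rw [Finset.mem_product, Finset.mem_Icc] at hx
    obtain ⟨h2, _, h4⟩ := ae_QI hx.1
    obtain ⟨e1, e2⟩ := qs_mul (q := q) hq0 h2 h4 hx.2.1 (hne _ hx0)
    simp only [e1, e2]
    rw [if_pos hx.1]
    push_cast
    ring

/-! ### The Hecke algebra -/

/-- the twisted coefficients as an arithmetic function -/
noncomputable def ae_C (χ : DirichletCharacter ℂ q) (f : S2 N) : ArithmeticFunction ℂ :=
  ⟨fun n => if n = 0 then 0 else χ n * co f n, if_pos rfl⟩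

theorem ae_C_apply (χ : DirichletCharacter ℂ q) (f : S2 N) {n : ℕ} (hn : n ≠ 0) :
    ae_C χ f n = χ n * co f n := by
  show (if n = 0 then 0 else χ n * co f n) = χ n * co f n
  rw [if_neg hn]

theorem ae_C_mult (χ : DirichletCharacter ℂ q) {f : S2 N} (hf : IsNew f) :
    (ae_C χ f).IsMultiplicative := by
  refine ArithmeticFunction.IsMultiplicative.iff_ne_zero.mpr ⟨?_, ?_⟩
  · rw [ae_C_apply χ f one_ne_zero, hf.one, Nat.cast_one, map_one, mul_one]
  · intro m n hm hn h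
    rw [ae_C_apply χ f (mul_ne_zero hm hn), ae_C_apply χ f hm, ae_C_apply χ f hn, hf.mul m n h,
      Nat.cast_mul, map_mul]
    ring

/-- the value at a squarefree number -/
theorem ae_prod (χ : DirichletCharacter ℂ q) {f : S2 N} (hf : IsNew f) {e : ℕ}
    (he : Squarefree e) :
    ∑ x ∈ e.divisorsAntidiagonal, ((ArithmeticFunction.moebius x.1 : ℤ) : ℂ) * ae_C χ f x.2 =
      ∏ p ∈ e.primeFactors, (χ p * co f p - 1) := by
  have h1 : ((((μ : ArithmeticFunction ℤ) : ArithmeticFunction ℂ)) * ae_C χ f) e =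
      ∑ x ∈ e.divisorsAntidiagonal, ((ArithmeticFunction.moebius x.1 : ℤ) : ℂ) * ae_C χ f x.2 := by
    rw [ArithmeticFunction.mul_apply]
    rfl
  rw [← h1]
  have hm : ((((μ : ArithmeticFunction ℤ) : ArithmeticFunction ℂ)) * ae_C χ f).IsMultiplicative :=
    (ArithmeticFunction.isMultiplicative_moebius.intCast).mul (ae_C_mult χ hf)
  rw [← hm.prod_primeFactors he]
  refine Finset.prod_congr rfl (fun p hp => ?_)
  have hpp := Nat.prime_of_mem_primeFactors hp
  rw [ArithmeticFunction.mul_apply]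
  rw [Nat.sum_divisorsAntidiagonal
    (f := fun a b => ((μ : ArithmeticFunction ℤ) : ArithmeticFunction ℂ) a * ae_C χ f b)]
  rw [hpp.sum_divisors]
  have hp0 : p ≠ 0 := hpp.ne_zero
  rw [Nat.div_self hpp.pos, Nat.div_one, ae_C_apply χ f one_ne_zero, ae_C_apply χ f hp0, hf.one,
    Nat.cast_one, map_one]
  simp only [ArithmeticFunction.intCoe_apply, ArithmeticFunction.moebius_apply_prime hpp,
    ArithmeticFunction.moebius_apply_one]
  push_cast
  ring

theorem ae_key {f : S2 N} (hf : IsNew f) (h1 : co f N = 1) {χ : DirichletCharacter ℂ q}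
    (hχ : PQ χ) (hN : χ (-(N : ZMod q)) = 1) {k m e : ℕ} (hk : 1 ≤ k)
    (hkq : k.primeFactors ⊆ q.primeFactors) (hm : m ≠ 0) (he : Squarefree e)
    (hme : m.Coprime e) (hmq : m.Coprime q) (heq : e.Coprime q)
    (hNc : (q * (k * (m * e))).Coprime N) :
    (bx χ f : ℂ) * (co f k * (χ m * co f m) * ∏ p ∈ e.primeFactors, (χ p * co f p - 1)) =
      4 * Real.pi / gaussSum χ ZMod.stdAddChar * ∑ u ∈ m.divisors, ((m / u).divisors.card : ℂ) *
        ∑ r ∈ e.divisors, (χ ((u * r : ℕ) : ZMod q) * ae_G χ f (q * (k * (u * r)))) := by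
  have he0 : e ≠ 0 := he.ne_zero
  set g : ℕ → ℂ := fun d => χ (d : ZMod q) * ae_G χ f (q * (k * d)) with hg
  have hcopk : ∀ n : ℕ, n.Coprime q → k.Coprime n := by
    intro n hn
    refine Nat.Coprime.symm (Nat.coprime_of_dvd fun p hp hpm hpk => ?_)
    have h3 : p ∈ q.primeFactors := hkq (Nat.mem_primeFactors.2 ⟨hp, hpk, by omega⟩)
    have h4 : p ∣ q := Nat.dvd_of_mem_primeFactors h3
    exact hp.one_lt.ne' (Nat.dvd_one.1 (hn ▸ Nat.dvd_gcd hpm h4))
  have hterm : ∀ x ∈ e.divisorsAntidiagonal,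
      (bx χ f : ℂ) * (co f k * (χ m * co f m) *
        (((ArithmeticFunction.moebius x.1 : ℤ) : ℂ) * ae_C χ f x.2)) =
      4 * Real.pi / gaussSum χ ZMod.stdAddChar * (((ArithmeticFunction.moebius x.1 : ℤ) : ℂ) *
        ∑ r ∈ x.2.divisors, ((x.2 / r).divisors.card : ℂ) *
          ∑ u ∈ m.divisors, ((m / u).divisors.card : ℂ) * g (u * r)) := by
    intro x hx
    have hx2 : x.2 ≠ 0 := Nat.right_ne_zero_of_mem_divisorsAntidiagonal hx
    have hdvd : x.2 ∣ e := Nat.dvd_of_mem_divisors (Nat.snd_mem_divisors_of_mem_antidiagonal hx)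
    have hc : m.Coprime x.2 := Nat.Coprime.coprime_dvd_right hdvd hme
    have hxq : x.2.Coprime q := Nat.Coprime.coprime_dvd_left hdvd heq
    have hmx : (m * x.2).Coprime q := Nat.Coprime.mul_left hmq hxq
    have hcN : (q * (k * (m * x.2))).Coprime N := Nat.Coprime.coprime_dvd_left
      (mul_dvd_mul_left q (mul_dvd_mul_left k (mul_dvd_mul_left m hdvd))) hNc
    have h2 := tw_hecke hf h1 hχ hN hk hkq (e := m * x.2)
      (Nat.pos_of_ne_zero (mul_ne_zero hm hx2)) hmx hcN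
    rw [ae_C_apply χ f hx2]
    have h3 : (bx χ f : ℂ) * (co f k * (χ m * co f m) *
        (((ArithmeticFunction.moebius x.1 : ℤ) : ℂ) * (χ x.2 * co f x.2))) =
        ((ArithmeticFunction.moebius x.1 : ℤ) : ℂ) * ((bx χ f : ℂ) *
          (χ ((m * x.2 : ℕ) : ZMod q) * co f (k * (m * x.2)))) := by
      rw [hf.mul k (m * x.2) (hcopk _ hmx), hf.mul m x.2 hc, Nat.cast_mul, map_mul]
      ring
    rw [h3, h2]
    have h4 : ∑ d ∈ (m * x.2).divisors, (((m * x.2) / d).divisors.card : ℂ) * χ d *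
        ∑ j ∈ RR (q * (k * d)), χ j * ∫ v in Set.Ioi (rq N (q * (k * d))),
            ev f ((j : ℝ) / ((q * (k * d) : ℕ) : ℝ)) v =
        ∑ r ∈ x.2.divisors, ((x.2 / r).divisors.card : ℂ) *
          ∑ u ∈ m.divisors, ((m / u).divisors.card : ℂ) * g (u * r) := by
      have h5 : ∀ d ∈ (m * x.2).divisors, (((m * x.2) / d).divisors.card : ℂ) * χ d *
        ∑ j ∈ RR (q * (k * d)), χ j * ∫ v in Set.Ioi (rq N (q * (k * d))),
            ev f ((j : ℝ) / ((q * (k * d) : ℕ) : ℝ)) v =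
          (((m * x.2) / d).divisors.card : ℂ) * g d := by
        intro d _
        rw [hg, mul_assoc]
        rfl
      rw [Finset.sum_congr rfl h5,
        lmi_div hc hm hx2 (fun d => (((m * x.2) / d).divisors.card : ℂ) * g d), Finset.sum_comm]
      refine Finset.sum_congr rfl (fun r hr => ?_)
      rw [Finset.mul_sum]
      refine Finset.sum_congr rfl (fun u hu => ?_)
      have hu1 := Nat.dvd_of_mem_divisors hu
      have hr1 := Nat.dvd_of_mem_divisors hr
      have e1 : m * x.2 / (u * r) = (m / u) * (x.2 / r) := Nat.mul_div_mul_comm hu1 hr1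
      have e2 : (m / u).Coprime (x.2 / r) :=
        Nat.Coprime.coprime_dvd_left (Nat.div_dvd_of_dvd hu1)
          (Nat.Coprime.coprime_dvd_right (Nat.div_dvd_of_dvd hr1) hc)
      rw [e1, Nat.Coprime.card_divisors_mul e2]
      push_cast
      ring
    rw [h4]
    ring
  rw [← ae_prod χ hf he, Finset.mul_sum, Finset.mul_sum, Finset.sum_congr rfl hterm,
    ← Finset.mul_sum,
    lmi_mob (fun r => ∑ u ∈ m.divisors, ((m / u).divisors.card : ℂ) * g (u * r)) he0]
  congr 1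
  rw [Finset.sum_comm]
  refine Finset.sum_congr rfl (fun u _ => ?_)
  rw [Finset.mul_sum]

/-- the mollified central value of the twist as a linear functional -/
theorem lm_tw {f : S2 N} (hf : IsNew f) (h1 : co f N = 1) {χ : DirichletCharacter ℂ q}
    (hχ : PQ χ) (hN : χ (-(N : ZMod q)) = 1) {z M K A X : ℕ} {a : ℕ → ℕ → ℝ}
    (ha : ∀ k m, a k m ≠ 0 → smooth z m ∧ m ≤ A ∧ m.Coprime q)
    (hQ : q * (X * QA M K A) < N) :
    ((bx χ f * (∑ k ∈ QI q X, la f k * ∑ m ∈ Finset.Icc 1 A, a k m * lx χ f m) *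
        MrC q z M K (lx χ f) : ℝ) : ℂ) =
      4 * Real.pi * gl f (q * (X * QA M K A)) (tw χ (fun k d =>
        if k ∈ QI q X then (1 / Real.sqrt k) * wAC q z M K A (a k) d else 0)) := by
  have hNp : N.Prime := Fact.out
  have hq0 : 0 < q := Nat.pos_of_ne_zero (NeZero.ne q)
  have hre : ∀ n, (((co f n).re : ℝ) : ℂ) = co f n := fun n => by
    apply Complex.ext
    · simp
    · simp [new_real hf n]
  have hχr : ∀ b : ZMod q, (((χ b).re : ℝ) : ℂ) = χ b := by
    intro b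
    by_cases hb : IsUnit b
    · have h2 : χ b * χ b = 1 := by
        have h := congrArg (fun ψ : DirichletCharacter ℂ q => ψ b) hχ.sq
        simp only [sq, MulChar.mul_apply] at h
        rw [h, MulChar.one_apply hb]
      rcases mul_self_eq_one_iff.1 h2 with h | h <;> rw [h] <;> simp
    · rw [MulChar.map_nonunit _ hb]
      simp
  have hlx : ∀ n : ℕ, ((lx χ f n : ℝ) : ℂ) = χ n * (co f n / ((Real.sqrt n : ℝ) : ℂ)) := by
    intro n
    unfold lx la
    push_cast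
    rw [hre, hχr]
  have hla : ∀ n : ℕ, ((la f n : ℝ) : ℂ) = co f n / ((Real.sqrt n : ℝ) : ℂ) := by
    intro n
    unfold la
    push_cast
    rw [hre]
  set E : Finset ℕ := (Finset.Icc 1 (K * M)).filter (fun e => e.Coprime q) with hE
  set τ : ℂ := gaussSum χ ZMod.stdAddChar with hτ
  -- right side
  have hR : gl f (q * (X * QA M K A)) (tw χ (fun k d =>
        if k ∈ QI q X then (1 / Real.sqrt k) * wAC q z M K A (a k) d else 0)) =
      ∑ k ∈ QI q X, ∑ m ∈ Finset.Icc 1 A, ∑ e ∈ E,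
        τ⁻¹ * ((1 / Real.sqrt k : ℝ) : ℂ) * ((a k m / Real.sqrt m : ℝ) : ℂ) * (yE z M K e : ℂ) *
        ∑ u ∈ m.divisors, ((m / u).divisors.card : ℂ) *
          ∑ r ∈ e.divisors, (χ ((u * r : ℕ) : ZMod q) * ae_G χ f (q * (k * (u * r)))) := by
    rw [ae_gl, ae_split χ ha (ae_G χ f), Finset.mul_sum]
    refine Finset.sum_congr rfl fun k _ => ?_
    set g : ℕ → ℂ := fun d => χ (d : ZMod q) * ae_G χ f (q * (k * d)) with hg
    have ha' : ∀ l, a k l ≠ 0 → smooth z l ∧ l ≤ A := fun l hl =>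
      ⟨(ha _ _ hl).1, (ha _ _ hl).2.1⟩
    have h2 := ae_sum (q := q) (M := M) (K := K) ha' g
    have h3 : ∀ u ∈ Finset.Icc 1 A, ∑ r ∈ Finset.Icc 1 (K * M),
        (al A (a k) u : ℂ) * (wC q z M K r : ℂ) * g (u * r) =
        (al A (a k) u : ℂ) * ∑ e ∈ E, (yE z M K e : ℂ) * ∑ r ∈ e.divisors, g (u * r) := by
      intro u _
      rw [← ae_multC q z M K (fun r => g (u * r)), Finset.mul_sum]
      refine Finset.sum_congr rfl (fun r _ => ?_)
      ring
    rw [Finset.sum_congr rfl h3, lmi_multA A (a k) (fun u => ∑ e ∈ E,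
      (yE z M K e : ℂ) * ∑ r ∈ e.divisors, g (u * r))] at h2
    rw [h2, Finset.mul_sum, Finset.mul_sum]
    refine Finset.sum_congr rfl (fun m _ => ?_)
    rw [Finset.mul_sum, Finset.mul_sum, Finset.mul_sum]
    have h4 : ∀ u ∈ m.divisors, τ⁻¹ * (((1 / Real.sqrt k : ℝ) : ℂ) *
        (((a k m / Real.sqrt m : ℝ) : ℂ) * (((m / u).divisors.card : ℂ) *
        ∑ e ∈ E, (yE z M K e : ℂ) * ∑ r ∈ e.divisors, g (u * r)))) =
        ∑ e ∈ E, τ⁻¹ * ((1 / Real.sqrt k : ℝ) : ℂ) * ((a k m / Real.sqrt m : ℝ) : ℂ) *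
          (yE z M K e : ℂ) * (((m / u).divisors.card : ℂ) * ∑ r ∈ e.divisors, g (u * r)) := by
      intro u _
      rw [Finset.mul_sum, Finset.mul_sum, Finset.mul_sum, Finset.mul_sum]
      refine Finset.sum_congr rfl (fun e _ => ?_)
      ring
    rw [Finset.sum_congr rfl h4, Finset.sum_comm]
    refine Finset.sum_congr rfl (fun e _ => ?_)
    rw [← Finset.mul_sum]
  -- left side
  have hL : ((bx χ f * (∑ k ∈ QI q X, la f k * ∑ m ∈ Finset.Icc 1 A, a k m * lx χ f m) *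
        MrC q z M K (lx χ f) : ℝ) : ℂ) = ∑ k ∈ QI q X, ∑ m ∈ Finset.Icc 1 A, ∑ e ∈ E,
        (bx χ f : ℂ) * (((la f k * (a k m * lx χ f m) : ℝ) : ℂ) * (((e : ℝ) * yE z M K e *
          ∏ p ∈ e.primeFactors, (lx χ f p / Real.sqrt p - 1 / p) : ℝ) : ℂ)) := by
    unfold MrC
    rw [← hE]
    have hx : ∀ (b : ℝ) (Y : ℕ → ℝ), b * (∑ k ∈ QI q X, la f k *
        ∑ m ∈ Finset.Icc 1 A, a k m * lx χ f m) * (∑ e ∈ E, Y e) =
        ∑ k ∈ QI q X, ∑ m ∈ Finset.Icc 1 A, ∑ e ∈ E,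
          b * ((la f k * (a k m * lx χ f m)) * Y e) := by
      intro b Y
      rw [mul_assoc, Finset.sum_mul, Finset.mul_sum]
      refine Finset.sum_congr rfl (fun k _ => ?_)
      rw [mul_assoc (la f k), Finset.sum_mul, Finset.mul_sum, Finset.mul_sum]
      refine Finset.sum_congr rfl (fun m _ => ?_)
      rw [Finset.mul_sum, Finset.mul_sum, Finset.mul_sum]
      refine Finset.sum_congr rfl (fun e _ => ?_)
      ring
    rw [hx]
    push_cast
    rfl
  rw [hL, hR, Finset.mul_sum]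
  refine Finset.sum_congr rfl (fun k hk => ?_)
  rw [Finset.mul_sum]
  refine Finset.sum_congr rfl (fun m hm => ?_)
  rw [Finset.mul_sum]
  refine Finset.sum_congr rfl (fun e he => ?_)
  rw [hE, Finset.mem_filter, Finset.mem_Icc] at he
  rw [Finset.mem_Icc] at hm
  obtain ⟨hk1, hk2, hk3⟩ := ae_QI hk
  by_cases hak : a k m = 0
  · rw [hak]
    simp
  by_cases hye : yE z M K e = 0
  · rw [hye]
    simp
  obtain ⟨hs1, hs2, hs3⟩ := ha k m hak
  obtain ⟨hrough, _, hsq, _⟩ := ae_yE hye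
  have hm0 : m ≠ 0 := by omega
  have he0 : e ≠ 0 := by omega
  have hcop : m.Coprime e := SRO_coprime hs1 hrough
  have hlt : q * (k * (m * e)) < N := by
    have h7 : m * e ≤ A * (K * M) := Nat.mul_le_mul hs2 he.1.2
    have h8 : A * (K * M) = QA M K A := by
      unfold QA
      ring
    rw [h8] at h7
    exact lt_of_le_of_lt (Nat.mul_le_mul_left q (Nat.mul_le_mul hk2 h7)) hQ
  have hcN : (q * (k * (m * e))).Coprime N := by
    rw [Nat.coprime_comm]
    refine (Nat.Prime.coprime_iff_not_dvd hNp).mpr (fun hd => ?_)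
    have hpos : 0 < q * (k * (m * e)) := Nat.mul_pos hq0 (Nat.mul_pos hk1
      (Nat.pos_of_ne_zero (mul_ne_zero hm0 he0)))
    have := Nat.le_of_dvd hpos hd
    omega
  have hkey := ae_key hf h1 hχ hN hk1 hk3 hm0 hsq hcop hs3 he.2 hcN
  have hprod : (e : ℂ) * ((∏ p ∈ e.primeFactors, (lx χ f p / Real.sqrt p - 1 / p) : ℝ) : ℂ) =
      ∏ p ∈ e.primeFactors, (χ p * co f p - 1) := by
    have h9 : (e : ℂ) = ∏ p ∈ e.primeFactors, (p : ℂ) := by
      have := Nat.prod_primeFactors_of_squarefree hsq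
      conv_lhs => rw [← this]
      push_cast
      rfl
    rw [h9]
    push_cast
    rw [← Finset.prod_mul_distrib]
    refine Finset.prod_congr rfl (fun p hp => ?_)
    have hpp := Nat.prime_of_mem_primeFactors hp
    have hp0 : (p : ℂ) ≠ 0 := by exact_mod_cast hpp.ne_zero
    have h11 : ((Real.sqrt p : ℝ) : ℂ) * ((Real.sqrt p : ℝ) : ℂ) = (p : ℂ) := by
      rw [← Complex.ofReal_mul, Real.mul_self_sqrt (Nat.cast_nonneg p)]
      simp
    rw [hlx, mul_div_assoc, div_div, h11]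
    field_simp
  have hfin : (bx χ f : ℂ) * (((la f k * (a k m * lx χ f m) : ℝ) : ℂ) *
      (((e : ℝ) * yE z M K e *
      ∏ p ∈ e.primeFactors, (lx χ f p / Real.sqrt p - 1 / p) : ℝ) : ℂ)) =
      ((1 / Real.sqrt k : ℝ) : ℂ) * ((a k m / Real.sqrt m : ℝ) : ℂ) * (yE z M K e : ℂ) *
        ((bx χ f : ℂ) * (co f k * (χ m * co f m) *
          ∏ p ∈ e.primeFactors, (χ p * co f p - 1))) := by
    rw [← hprod]
    push_cast
    rw [hla, hlx]
    ring
  rw [hfin, hkey]
  ring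

end

end Pool.Agent.TK
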