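import Pool.Agent.Lib_helper41.TK.W.TL
import Pool.Agent.Lib_helper41.TK.W.TI
import Pool.Agent.Lib_helper41.TK.W.GG
import Pool.Agent.Lib_helper68.KSLF.SZF
import Pool.Agent.Lib_helper68.KSLF.BPT

/-! TK, block TN. -/

set_option autoImplicit false

namespace Pool.Agent.TK

open Pool.Agent.LEV Pool.Agent.LVB Pool.Agent.KSL
open Pool.Agent.LK (PQ)
open Pool.Agent.FG61 (mu phi cc ff AA Lam)
open Complex MeasureTheory Filter Topology UpperHalfPlane ModularGroup ProbabilityTheory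
open scoped MatrixGroups Modular ENNReal ModularForm ComplexConjugate ContDiff

theorem tn_QI {q X k : ℕ} (h : k ∈ QI q X) : 1 ≤ k ∧ k ≤ X ∧ k.primeFactors ⊆ q.primeFactors := by
  unfold QI at h
  rw [Finset.mem_filter, Finset.mem_Icc] at h
  exact ⟨h.1.1, h.1.2, h.2⟩

/-- the terms of the index `k` -/
theorem tn_hasSum {q : ℕ} (hq : 1 ≤ q) {k : ℕ} (hk : 1 ≤ k)
    (hkq : k.primeFactors ⊆ q.primeFactors) (g : ℝ → ℝ) (R : ℕ → ℝ) (y : ℝ)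
    (hs : Summable (fun m : ℕ => if (m + 1).Coprime q then g ((m + 1) * (k * y)) *
      R (m + 1) ^ 2 else 0)) :
    HasSum (fun n : ℕ => if qs q (n + 1) = k then g ((n + 1) * y) * (k * R (qr q (n + 1)) ^ 2)
      else 0) (k * ∑' m : ℕ, if (m + 1).Coprime q then g ((m + 1) * (k * y)) *
      R (m + 1) ^ 2 else 0) := by
  have hpos : ∀ m : ℕ, 1 ≤ k * (m + 1) := fun m => Nat.mul_pos hk (Nat.succ_pos m)
  have hinj : Function.Injective (fun m : ℕ => k * (m + 1) - 1) := by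
    intro m m' h
    have h' : k * (m + 1) - 1 = k * (m' + 1) - 1 := h
    have h1 := hpos m
    have h2 := hpos m'
    have h3 : k * (m + 1) = k * (m' + 1) := by omega
    have h4 := Nat.eq_of_mul_eq_mul_left hk h3
    omega
  refine (Function.Injective.hasSum_iff hinj ?_).mp ?_
  · intro x hx
    rw [if_neg]
    intro h
    apply hx
    obtain ⟨h1, _, _, _, h5⟩ := qs_qr (q := q) (m := x + 1) hq (by omega)
    rw [h] at h1
    refine ⟨qr q (x + 1) - 1, ?_⟩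
    show k * (qr q (x + 1) - 1 + 1) - 1 = x
    rw [Nat.sub_add_cancel h5, h1]
    omega
  · have h1 : (fun n : ℕ => if qs q (n + 1) = k then g ((n + 1) * y) * (k * R (qr q (n + 1)) ^ 2)
      else 0) ∘ (fun m : ℕ => k * (m + 1) - 1) = fun m : ℕ => (k : ℝ) *
        (if (m + 1).Coprime q then g ((m + 1) * (k * y)) * R (m + 1) ^ 2 else 0) := by
      funext m
      have e1 : k * (m + 1) - 1 + 1 = k * (m + 1) := Nat.sub_add_cancel (hpos m)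
      have e2 : ((k * (m + 1) - 1 : ℕ) : ℝ) + 1 = k * ((m : ℝ) + 1) := by
        have e3 : ((k * (m + 1) - 1 : ℕ) : ℝ) + 1 = ((k * (m + 1) - 1 + 1 : ℕ) : ℝ) := by
          rw [Nat.cast_add, Nat.cast_one]
        rw [e3, e1]
        push_cast
        ring
      simp only [Function.comp_apply]
      rw [e1]
      by_cases hc : (m + 1).Coprime q
      · obtain ⟨h2, h3⟩ := qs_mul (q := q) hq hk hkq (Nat.succ_pos m) hc
        rw [if_pos h2, if_pos hc, h3, e2]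
        have e3 : (k : ℝ) * ((m : ℝ) + 1) * y = ((m : ℝ) + 1) * (k * y) := by ring
        rw [e3]
        ring
      · rw [if_neg hc, if_neg, mul_zero]
        intro h
        apply hc
        obtain ⟨h1, _, h3, _, _⟩ := qs_qr (q := q) (m := k * (m + 1)) hq (hpos m)
        rw [h] at h1
        have h4 := Nat.eq_of_mul_eq_mul_left hk h1
        rw [h4] at h3
        exact h3
    rw [h1]
    exact hs.hasSum.mul_left _

/-- the sum at a given height -/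
theorem tn_point {T : ℝ} {ρ : ℝ → ℝ} (hρ : Ker T ρ) {g : ℝ → ℝ}
    (hd : ∀ u, 0 < u → ‖kh ρ u‖ ^ 2 + ‖kh ρ (-u)‖ ^ 2 ≤ g u) {δ ε₂ : ℝ} {N : ℕ} (hN' : 1 ≤ N)
    {q : ℕ} [NeZero q] {χ : DirichletCharacter ℂ q} (hχ : PQ χ) (X : ℕ) (a : ℕ → ℕ → ℝ)
    (ha : ∀ k ∈ QI q X, ShC q (zz (N * q ^ 2)) (KA ε₂ (N * q ^ 2)) (a k))
    (hQ1 : 1 ≤ QC q δ ε₂ (N * q ^ 2) X) (hQ : 100 * T * QC q δ ε₂ (N * q ^ 2) X ≤ Real.sqrt N)
    {y : ℝ} (hy : 0 < y) (hy2 : y < 2 / Real.sqrt N)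
    (hs : ∀ k ∈ QI q X, Summable (fun m : ℕ => if (m + 1).Coprime q then g ((m + 1) * (k * y)) *
        TT (QQ δ ε₂ (N * q ^ 2)) (wwC q δ ε₂ (N * q ^ 2) (a k))
          (2 / (k * y * Real.sqrt (N * q ^ 2 : ℕ))) (m + 1) ^ 2 else 0)) :
    ∫ x : ℝ, ‖gph N (QC q δ ε₂ (N * q ^ 2) X) (tw χ (vv q δ ε₂ (N * q ^ 2) X a)) ρ x y‖ ^ 2 ≤
      ∑ k ∈ QI q X, k * hN q δ ε₂ (N * q ^ 2) (a k) g (k * y) := by
  have hq0 : 0 < q := Nat.pos_of_ne_zero (NeZero.ne q)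
  have hqR : (0 : ℝ) < q := by exact_mod_cast hq0
  have hN0 : (0 : ℝ) < N := by exact_mod_cast hN'
  have hsN : 0 < Real.sqrt N := Real.sqrt_pos.2 hN0
  have hsq : Real.sqrt ((N * q ^ 2 : ℕ) : ℝ) = Real.sqrt N * q := by
    push_cast
    rw [Real.sqrt_mul hN0.le, Real.sqrt_sq hqR.le]
  set Q := QC q δ ε₂ (N * q ^ 2) X with hQdef
  set w := tw χ (vv q δ ε₂ (N * q ^ 2) X a) with hw
  obtain ⟨p1, p2, p3⟩ := gph_parseval hρ hN' hQ1 hQ w hy hy2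
  rw [p3]
  set D : ℝ := 2 / (y * Real.sqrt N) with hD
  have hz : gT Q w D 0 = 0 := gT_zero hχ _ _ _
  rw [hz, norm_zero, zero_pow two_ne_zero, zero_add]
  -- the terms
  have hF : ∀ k ∈ QI q X, HasSum (fun n : ℕ => if qs q (n + 1) = k then g ((n + 1) * y) *
      (k * TT (QQ δ ε₂ (N * q ^ 2)) (wwC q δ ε₂ (N * q ^ 2) (a k))
          (2 / (k * y * Real.sqrt (N * q ^ 2 : ℕ))) (qr q (n + 1)) ^ 2)
      else 0) (k * hN q δ ε₂ (N * q ^ 2) (a k) g (k * y)) := by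
    intro k hk
    obtain ⟨h1, _, h3⟩ := tn_QI hk
    exact tn_hasSum hq0 h1 h3 g (fun m => TT (QQ δ ε₂ (N * q ^ 2)) (wwC q δ ε₂ (N * q ^ 2) (a k))
          (2 / (k * y * Real.sqrt (N * q ^ 2 : ℕ))) m) y (hs k hk)
  have hT := hasSum_sum hF
  refine (p1.tsum_le_tsum (fun n => ?_) hT.summable).trans hT.tsum_eq.le
  have hn : (0 : ℝ) < ((n : ℝ) + 1) * y := mul_pos (by positivity) hy
  have e1 := gT_vv hχ δ ε₂ (N * q ^ 2) X a ha D (m := (n + 1 : ℤ)) (by omega)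
  have e2 := gT_vv hχ δ ε₂ (N * q ^ 2) X a ha D (m := -(n + 1 : ℤ)) (by omega)
  have n1 : ((n : ℤ) + 1).natAbs = n + 1 := by omega
  have n2 : (-((n : ℤ) + 1)).natAbs = n + 1 := by omega
  rw [n1] at e1
  rw [n2] at e2
  rw [← hQdef, ← hw] at e1 e2
  rw [e1, e2, ← add_mul]
  have h0 : (0 : ℝ) ≤ if qs q (n + 1) ∈ QI q X then (qs q (n + 1) : ℝ) *
        TT (QQ δ ε₂ (N * q ^ 2)) (wwC q δ ε₂ (N * q ^ 2) (a (qs q (n + 1))))
          (D / (q * qs q (n + 1))) (qr q (n + 1)) ^ 2 else 0 := by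
    split_ifs
    · positivity
    · exact le_rfl
  refine (mul_le_mul_of_nonneg_right (hd _ hn) h0).trans (le_of_eq ?_)
  by_cases hk : qs q (n + 1) ∈ QI q X
  · rw [if_pos hk, Finset.sum_eq_single_of_mem _ hk]
    · rw [if_pos rfl]
      have hk1 : (0 : ℝ) < qs q (n + 1) := by
        have := (tn_QI hk).1
        exact_mod_cast this
      have e3 : D / (q * qs q (n + 1)) = 2 / (qs q (n + 1) * y * Real.sqrt (N * q ^ 2 : ℕ)) := by
        rw [hsq, hD, div_div]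
        congr 1
        ring
      rw [e3]
    · intro k _ hne
      rw [if_neg (fun h => hne h.symm)]
  · rw [if_neg hk, mul_zero, Finset.sum_eq_zero]
    intro k hk'
    rw [if_neg]
    intro h
    exact hk (h ▸ hk')

/-- change of variables -/
theorem tn_scale {k : ℝ} (hk : 0 < k) {b : ℝ} (hb : 0 ≤ b) (F : ℝ → ℝ)
    (hF : IntegrableOn F (Set.Ioo 0 (k * b))) :
    IntegrableOn (fun y => k * F (k * y)) (Set.Ioo 0 b) ∧
      ∫ y in Set.Ioo 0 b, k * F (k * y) = ∫ y in Set.Ioo 0 (k * b), F y := by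
  have hkb : 0 ≤ k * b := by positivity
  have h1 : IntervalIntegrable F volume 0 (k * b) :=
    (intervalIntegrable_iff_integrableOn_Ioo_of_le hkb).2 hF
  have h2 : IntervalIntegrable (fun y => F (k * y)) volume 0 b := by
    have h3 := h1.comp_mul_left (c := k)
    rw [zero_div, mul_div_cancel_left₀ b hk.ne'] at h3
    exact h3
  refine ⟨(intervalIntegrable_iff_integrableOn_Ioo_of_le hb).1 (h2.const_mul k), ?_⟩
  rw [← integral_Ioc_eq_integral_Ioo, ← integral_Ioc_eq_integral_Ioo,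
    ← intervalIntegral.integral_of_le hb, ← intervalIntegral.integral_of_le hkb,
    intervalIntegral.integral_const_mul, intervalIntegral.integral_comp_mul_left _ hk.ne',
    mul_zero, smul_eq_mul, ← mul_assoc, mul_inv_cancel₀ hk.ne', one_mul]

theorem gBS_vv {T : ℝ} {ρ : ℝ → ℝ} (hρ : Ker T ρ) {g : ℝ → ℝ} {G : ℝ} (hg : Kg g G)
    (hd : ∀ u, 0 < u → ‖kh ρ u‖ ^ 2 + ‖kh ρ (-u)‖ ^ 2 ≤ g u) {δ : ℝ} (h0 : 0 < δ)
    (h1 : δ < 1 / 4) {ε : ℝ} (hε : 0 < ε) (C₀ : ℝ) (X : ℕ) : ∃ ε₁ κ : ℝ, 0 < ε₁ ∧ 0 < κ ∧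
    ∀ ε₂ : ℝ, 0 < ε₂ → ε₂ ≤ ε₁ → ∃ (κ₁ : ℝ) (N₀ : ℕ), 0 < κ₁ ∧ ∀ N : ℕ, N₀ ≤ N →
    ∀ (q : ℕ) [NeZero q] (χ : DirichletCharacter ℂ q), PQ χ → (q : ℝ) ≤ (N : ℝ) ^ κ₁ →
    ∀ a : ℕ → ℕ → ℝ, ∀ s : ℕ → ℕ → ℝ, (∀ k m, s k m ≠ 0 → m ≤ X) →
    (∀ k ∈ QI q X, ShC q (zz (N * q ^ 2)) (KA ε₂ (N * q ^ 2)) (a k) ∧
      cnC q (zz (N * q ^ 2)) (KA ε₂ (N * q ^ 2)) (a k) ≤ C₀ ∧
      cdC q (zz (N * q ^ 2)) (KA ε₂ (N * q ^ 2)) (a k) (s k) ≤ κ) →
      gBS N (QC q δ ε₂ (N * q ^ 2) X) (tw χ (vv q δ ε₂ (N * q ^ 2) X a)) ρ ≤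
        (∫ u in Set.Ioi (0 : ℝ), g u) *
          (∑ k ∈ QI q X, cnC q (zz (N * q ^ 2)) (KA ε₂ (N * q ^ 2)) (a k) / 2) + ε := by
  rcases Nat.eq_zero_or_pos X with hX | hX
  · -- no terms
    subst hX
    refine ⟨1, 1, one_pos, one_pos, fun ε₂ _ _ => ⟨1, 0, one_pos, fun N _ q _ χ _ _ a s _ _ => ?_⟩⟩
    have e1 : QI q 0 = ∅ := by
      unfold QI
      simp
    have e2 : QC q δ ε₂ (N * q ^ 2) 0 = 0 := by
      unfold QC
      rw [zero_mul, mul_zero]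
    rw [e1, e2, Finset.sum_empty, mul_zero, zero_add]
    unfold gBS gph
    have e3 : Finset.Icc 1 0 = (∅ : Finset ℕ) := by simp
    simp only [e3, Finset.filter_empty, Finset.sum_empty, norm_zero]
    simp
    exact hε.le
  have hXR : (0 : ℝ) < X := by exact_mod_cast hX
  obtain ⟨ε₁, κ, hε₁, hκ, hb⟩ := bulk_genC h0 h1 (ε := ε / X) (by positivity) C₀ hg
  refine ⟨min ε₁ (δ / 40), κ, lt_min hε₁ (by positivity), hκ, fun ε₂ h2 h3 => ?_⟩
  have h4 : ε₂ ≤ δ / 40 := h3.trans (min_le_right _ _)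
  obtain ⟨N₁, hN₁⟩ := hb ε₂ h2 (h3.trans (min_le_left _ _))
  obtain ⟨N₃, hN₃⟩ := sizes h0 h1 (ε := 1) one_pos
  obtain ⟨N₄, hN₄⟩ := BPT_pow (c := δ / 2) (by positivity) (200 * T * X)
  obtain ⟨N₅, hN₅⟩ := BPT_pow (c := ε₂ / 2) (by positivity) X
  refine ⟨ε₂ / 2, max (max N₁ N₅) (max (max N₃ N₄) 4), by positivity, ?_⟩
  intro N hNN q _ χ hχ hqN a s hs hall
  have hq0 : 0 < q := Nat.pos_of_ne_zero (NeZero.ne q)
  have hqR : (0 : ℝ) < q := by exact_mod_cast hq0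
  have hq1 : (1 : ℝ) ≤ q := by exact_mod_cast hq0
  have hN4 : 4 ≤ N := by omega
  have hN0 : (0 : ℝ) < N := by exact_mod_cast (by omega : 0 < N)
  have hN1 : (1 : ℝ) ≤ N := by exact_mod_cast (by omega : 1 ≤ N)
  have hsN : 0 < Real.sqrt N := Real.sqrt_pos.2 hN0
  have hnN : N ≤ N * q ^ 2 := Nat.le_mul_of_pos_right N (by positivity)
  have hnN' : (N : ℝ) ≤ ((N * q ^ 2 : ℕ) : ℝ) := by exact_mod_cast hnN
  have hn1 : (1 : ℝ) ≤ ((N * q ^ 2 : ℕ) : ℝ) := hN1.trans hnN'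
  have hn0 : (0 : ℝ) < ((N * q ^ 2 : ℕ) : ℝ) := lt_of_lt_of_le one_pos hn1
  obtain ⟨s1, s2, s3, -⟩ := hN₃ (N * q ^ 2) (by omega)
  have hKA1 := (ka_size h2 (N := N * q ^ 2) (by omega)).1
  have hXN : (X : ℝ) ≤ (N : ℝ) ^ (ε₂ / 2) := hN₅ N (by omega)
  -- `X q ≤ KA`
  have hXq : X * q ≤ KA ε₂ (N * q ^ 2) := by
    unfold KA
    apply Nat.le_floor
    push_cast
    calc (X : ℝ) * q ≤ (N : ℝ) ^ (ε₂ / 2) * (N : ℝ) ^ (ε₂ / 2) :=
          mul_le_mul hXN hqN (by positivity) (by positivity)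
      _ = (N : ℝ) ^ ε₂ := by rw [← Real.rpow_add hN0]; congr 1; ring
      _ ≤ ((N : ℝ) * q ^ 2) ^ ε₂ := by
          refine Real.rpow_le_rpow hN0.le ?_ h2.le
          push_cast at hnN'
          exact hnN'
  have hqKA : q ≤ KA ε₂ (N * q ^ 2) := (Nat.le_mul_of_pos_left q hX).trans hXq
  have hXKA : X ≤ KA ε₂ (N * q ^ 2) := (Nat.le_mul_of_pos_right X hq0).trans hXq
  have hQ1 : 1 ≤ QC q δ ε₂ (N * q ^ 2) X := by
    have g2 : 1 ≤ MM δ (N * q ^ 2) := by omega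
    have g3 : 1 ≤ QQ δ ε₂ (N * q ^ 2) := by
      unfold QQ QA
      calc 1 ≤ 1 * 1 * 1 := by norm_num
        _ ≤ 2 * MM δ (N * q ^ 2) * KA ε₂ (N * q ^ 2) := by
          exact Nat.mul_le_mul (Nat.mul_le_mul (by norm_num) g2) hKA1
    unfold QC
    exact Nat.mul_pos hq0 (Nat.mul_pos hX g3)
  have hQT : 100 * T * QC q δ ε₂ (N * q ^ 2) X ≤ Real.sqrt N := by
    have hT0 : 0 ≤ T := le_trans zero_le_one hρ.T1
    obtain ⟨g1, -⟩ := BPT_Q (δ := δ) (ε₂ := ε₂) (N := N * q ^ 2) (by omega) (by linarith)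
    have hTN : 200 * T * X ≤ (N : ℝ) ^ (δ / 2) := hN₄ N (by omega)
    set θ : ℝ := 1 / 2 - δ + ε₂ with hθ
    have hθ0 : 0 ≤ θ := by rw [hθ]; linarith
    have hθ1 : θ ≤ 1 / 2 := by rw [hθ]; linarith
    have hnle : ((N * q ^ 2 : ℕ) : ℝ) ^ θ ≤ (N : ℝ) ^ (θ + ε₂ / 2) := by
      push_cast
      rw [Real.mul_rpow hN0.le (by positivity), Real.rpow_add hN0 θ (ε₂ / 2)]
      refine mul_le_mul_of_nonneg_left ?_ (Real.rpow_nonneg hN0.le _)
      have e1 : ((q : ℝ) ^ 2) ^ θ ≤ ((q : ℝ) ^ 2) ^ (1 / 2 : ℝ) :=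
        Real.rpow_le_rpow_of_exponent_le (one_le_pow₀ hq1) hθ1
      have e2 : ((q : ℝ) ^ 2) ^ (1 / 2 : ℝ) = q := by
        rw [← Real.sqrt_eq_rpow, Real.sqrt_sq hqR.le]
      rw [e2] at e1
      exact e1.trans hqN
    have e3 : (QC q δ ε₂ (N * q ^ 2) X : ℝ) = q * (X * QQ δ ε₂ (N * q ^ 2)) := by
      unfold QC
      push_cast
      ring
    rw [e3]
    calc 100 * T * (q * (X * (QQ δ ε₂ (N * q ^ 2) : ℝ)))
        = (100 * T * X) * q * (QQ δ ε₂ (N * q ^ 2) : ℝ) := by ring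
      _ ≤ (100 * T * X) * (N : ℝ) ^ (ε₂ / 2) * (2 * (N : ℝ) ^ (θ + ε₂ / 2)) := by
          refine mul_le_mul (mul_le_mul_of_nonneg_left hqN (by positivity))
            (g1.trans (mul_le_mul_of_nonneg_left hnle (by norm_num))) (by positivity)
            (by positivity)
      _ = (200 * T * X) * ((N : ℝ) ^ (ε₂ / 2) * (N : ℝ) ^ (θ + ε₂ / 2)) := by ring
      _ ≤ (N : ℝ) ^ (δ / 2) * ((N : ℝ) ^ (ε₂ / 2) * (N : ℝ) ^ (θ + ε₂ / 2)) :=
          mul_le_mul_of_nonneg_right hTN (by positivity)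
      _ = (N : ℝ) ^ (δ / 2 + (ε₂ / 2 + (θ + ε₂ / 2))) := by
          rw [Real.rpow_add hN0 (δ / 2), Real.rpow_add hN0 (ε₂ / 2)]
      _ ≤ (N : ℝ) ^ (1 / 2 : ℝ) := Real.rpow_le_rpow_of_exponent_le hN1 (by rw [hθ]; linarith)
      _ = Real.sqrt N := by rw [Real.sqrt_eq_rpow]
  have hsq : Real.sqrt ((N * q ^ 2 : ℕ) : ℝ) = Real.sqrt N * q := by
    push_cast
    rw [Real.sqrt_mul hN0.le, Real.sqrt_sq hqR.le]
  have hb0 : 0 ≤ 2 / Real.sqrt N := by positivity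
  -- the heights
  have hk : ∀ k ∈ QI q X,
      (∀ y : ℝ, 0 < y → Summable (fun m : ℕ => if (m + 1).Coprime q then g ((m + 1) * y) *
        TT (QQ δ ε₂ (N * q ^ 2)) (wwC q δ ε₂ (N * q ^ 2) (a k))
          (2 / (y * Real.sqrt (N * q ^ 2 : ℕ))) (m + 1) ^ 2 else 0)) ∧
      IntegrableOn (fun y : ℝ => (k : ℝ) * hN q δ ε₂ (N * q ^ 2) (a k) g (k * y))
        (Set.Ioo 0 (2 / Real.sqrt N)) ∧
      ∫ y in Set.Ioo 0 (2 / Real.sqrt N), (k : ℝ) * hN q δ ε₂ (N * q ^ 2) (a k) g (k * y) ≤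
        (∫ u in Set.Ioi (0 : ℝ), g u) *
          (cnC q (zz (N * q ^ 2)) (KA ε₂ (N * q ^ 2)) (a k) / 2) + ε / X := by
    intro k hk
    obtain ⟨k1, k2, _⟩ := tn_QI hk
    obtain ⟨a1, a2, a3⟩ := hall k hk
    have hk0 : (0 : ℝ) < k := by exact_mod_cast k1
    obtain ⟨b1, b2, b3⟩ := hN₁ (N * q ^ 2) (by omega) q (k * q) hq0 hqKA (Nat.mul_pos k1 hq0)
      ((Nat.mul_le_mul_right q k2).trans hXq) (a k) a1 a2 (s k)
      (fun m hm => (hs k m hm).trans hXKA) a3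
    have e1 : 2 * ((k * q : ℕ) : ℝ) / Real.sqrt ((N * q ^ 2 : ℕ) : ℝ) =
        k * (2 / Real.sqrt N) := by
      rw [hsq]
      push_cast
      field_simp
    rw [e1] at b2 b3
    obtain ⟨c1, c2⟩ := tn_scale hk0 hb0 (fun y => hN q δ ε₂ (N * q ^ 2) (a k) g y) b2
    refine ⟨b1, c1, ?_⟩
    rw [c2]
    exact b3
  have hpt : ∀ y ∈ Set.Ioo 0 (2 / Real.sqrt N),
      ∫ x : ℝ, ‖gph N (QC q δ ε₂ (N * q ^ 2) X) (tw χ (vv q δ ε₂ (N * q ^ 2) X a)) ρ x y‖ ^ 2 ≤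
      ∑ k ∈ QI q X, (k : ℝ) * hN q δ ε₂ (N * q ^ 2) (a k) g (k * y) := by
    intro y hy
    refine tn_point hρ hd (by omega) hχ X a (fun k hk => (hall k hk).1) hQ1 hQT hy.1 hy.2
      (fun k hk' => ?_)
    have hk0 : (0 : ℝ) < k := by
      have := (tn_QI hk').1
      exact_mod_cast this
    exact (hk k hk').1 (k * y) (mul_pos hk0 hy.1)
  unfold gBS
  calc ∫ y in Set.Ioo 0 (2 / Real.sqrt N), ∫ x : ℝ,
        ‖gph N (QC q δ ε₂ (N * q ^ 2) X) (tw χ (vv q δ ε₂ (N * q ^ 2) X a)) ρ x y‖ ^ 2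
      ≤ ∫ y in Set.Ioo 0 (2 / Real.sqrt N),
        ∑ k ∈ QI q X, (k : ℝ) * hN q δ ε₂ (N * q ^ 2) (a k) g (k * y) := by
        refine integral_mono_of_nonneg ?_
          (MeasureTheory.integrable_finsetSum _ fun k hk' => (hk k hk').2.1) ?_
        · exact Filter.Eventually.of_forall fun y => integral_nonneg fun x => sq_nonneg _
        · rw [Filter.EventuallyLE, ae_restrict_iff' measurableSet_Ioo]
          exact Filter.Eventually.of_forall fun y hy => hpt y hy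
    _ = ∑ k ∈ QI q X, ∫ y in Set.Ioo 0 (2 / Real.sqrt N),
        (k : ℝ) * hN q δ ε₂ (N * q ^ 2) (a k) g (k * y) :=
        integral_finsetSum _ fun k hk' => (hk k hk').2.1
    _ ≤ ∑ k ∈ QI q X, ((∫ u in Set.Ioi (0 : ℝ), g u) *
          (cnC q (zz (N * q ^ 2)) (KA ε₂ (N * q ^ 2)) (a k) / 2) + ε / X) :=
        Finset.sum_le_sum fun k hk' => (hk k hk').2.2
    _ = (∫ u in Set.Ioi (0 : ℝ), g u) *
          (∑ k ∈ QI q X, cnC q (zz (N * q ^ 2)) (KA ε₂ (N * q ^ 2)) (a k) / 2) +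
          (QI q X).card * (ε / X) := by
        rw [Finset.sum_add_distrib, ← Finset.mul_sum, Finset.sum_const, nsmul_eq_mul]
    _ ≤ _ := by
        refine add_le_add le_rfl ?_
        have hcard : ((QI q X).card : ℝ) ≤ X := by
          have h : (QI q X).card ≤ (Finset.Icc 1 X).card := by
            unfold QI
            exact Finset.card_filter_le _ _
          rw [Nat.card_Icc] at h
          exact_mod_cast h
        calc ((QI q X).card : ℝ) * (ε / X) ≤ X * (ε / X) :=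
              mul_le_mul_of_nonneg_right hcard (by positivity)
          _ = ε := by field_simp

end Pool.Agent.TK
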