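import Pool.Agent.Lib_helper41.TK.W.TM
import Pool.Agent.Lib_helper41.TK.W.TN
import Pool.Agent.Lib_helper41.TK.W.TD
import Pool.Agent.Lib_helper41.TK.W.GF
import Pool.Agent.Lib_helper68.KSLF.SEC
import Pool.Agent.Lib_helper68.KSLF.SZF
import Pool.Agent.Lib_helper68.KSLF.BPT

/-! TK, block TO. -/

set_option autoImplicit false

namespace Pool.Agent.TK

open Pool.Agent.LEV Pool.Agent.LVB Pool.Agent.KSL
open Pool.Agent.LK (PQ)
open Pool.Agent.FG61 (mu phi cc ff AA Lam)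
open Complex MeasureTheory Filter Topology UpperHalfPlane ModularGroup ProbabilityTheory
open scoped MatrixGroups Modular ENNReal ModularForm ComplexConjugate ContDiff

theorem to_cn_nonneg (q z A : ℕ) (a : ℕ → ℝ) : 0 ≤ cnC q z A a := by
  unfold cnC
  refine tsum_nonneg fun m => ?_
  split_ifs
  · positivity
  · exact le_rfl

theorem to_card (q X : ℕ) : ((QI q X).card : ℝ) ≤ X := by
  have h : (QI q X).card ≤ (Finset.Icc 1 X).card := by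
    unfold QI
    exact Finset.card_filter_le _ _
  rw [Nat.card_Icc] at h
  exact_mod_cast h

theorem to_size {δ : ℝ} (h0 : 0 < δ) (h1 : δ < 1 / 4) {T : ℝ} (hT : 1 ≤ T) {ε₂ : ℝ}
    (h2 : 0 < ε₂) (h3 : ε₂ ≤ δ / 40) {X : ℕ} (hX : 0 < X) : ∃ N₀ : ℕ, ∀ N : ℕ, N₀ ≤ N →
      ∀ q : ℕ, 1 ≤ q → (q : ℝ) ≤ (N : ℝ) ^ (ε₂ / 2) → 1 ≤ QC q δ ε₂ (N * q ^ 2) X ∧
        100 * T * QC q δ ε₂ (N * q ^ 2) X ≤ Real.sqrt N := by
  obtain ⟨N₃, hN₃⟩ := sizes h0 h1 (ε := 1) one_pos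
  obtain ⟨N₄, hN₄⟩ := BPT_pow (c := δ / 2) (by positivity) (200 * T * X)
  refine ⟨max (max N₃ N₄) 4, fun N hN q hq0 hqN => ?_⟩
  have hqR : (0 : ℝ) < q := by exact_mod_cast hq0
  have hq1 : (1 : ℝ) ≤ q := by exact_mod_cast hq0
  have hN4 : 4 ≤ N := by omega
  have hN0 : (0 : ℝ) < N := by exact_mod_cast (by omega : 0 < N)
  have hN1 : (1 : ℝ) ≤ N := by exact_mod_cast (by omega : 1 ≤ N)
  have hnN : N ≤ N * q ^ 2 := Nat.le_mul_of_pos_right N (by positivity)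
  obtain ⟨s1, s2, s3, -⟩ := hN₃ (N * q ^ 2) (by omega)
  have hKA1 := (ka_size h2 (N := N * q ^ 2) (by omega)).1
  constructor
  · have g2 : 1 ≤ MM δ (N * q ^ 2) := by omega
    have g3 : 1 ≤ QQ δ ε₂ (N * q ^ 2) := by
      unfold QQ QA
      calc 1 ≤ 1 * 1 * 1 := by norm_num
        _ ≤ 2 * MM δ (N * q ^ 2) * KA ε₂ (N * q ^ 2) := by
          exact Nat.mul_le_mul (Nat.mul_le_mul (by norm_num) g2) hKA1
    unfold QC
    exact Nat.mul_pos hq0 (Nat.mul_pos hX g3)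
  · have hT0 : 0 ≤ T := le_trans zero_le_one hT
    obtain ⟨g1, -⟩ := BPT_Q (δ := δ) (ε₂ := ε₂) (N := N * q ^ 2) (by omega) (by linarith)
    have hTN : 200 * T * X ≤ (N : ℝ) ^ (δ / 2) := hN₄ N (by omega)
    set θ : ℝ := 1 / 2 - δ + ε₂ with hθ
    have hθ1 : θ ≤ 1 / 2 := by rw [hθ]; linarith
    have hnle : ((N * q ^ 2 : ℕ) : ℝ) ^ θ ≤ (N : ℝ) ^ (θ + ε₂ / 2) := by
      push_cast
      rw [Real.mul_rpow hN0.le (by positivity), Real.rpow_add hN0 θ (ε₂ / 2)]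
      refine mul_le_mul_of_nonneg_left ?_ (Real.rpow_nonneg hN0.le _)
      have e1 : ((q : ℝ) ^ 2) ^ θ ≤ ((q : ℝ) ^ 2) ^ (1 / 2 : ℝ) :=
        Real.rpow_le_rpow_of_exponent_le (one_le_pow₀ hq1) hθ1
      have e2 : ((q : ℝ) ^ 2) ^ (1 / 2 : ℝ) = q := by
        rw [← Real.sqrt_eq_rpow, Real.sqrt_sq hqR.le]
      rw [e2] at e1
      exact e1.trans hqN
    have e3 : (QC q δ ε₂ (N * q ^ 2) X : ℝ) = q * (X * QQ δ ε₂ (N * q ^ 2)) := by
      unfold QC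
      push_cast
      ring
    rw [e3]
    calc 100 * T * (q * (X * (QQ δ ε₂ (N * q ^ 2) : ℝ)))
        = (100 * T * X) * q * (QQ δ ε₂ (N * q ^ 2) : ℝ) := by ring
      _ ≤ (100 * T * X) * (N : ℝ) ^ (ε₂ / 2) * (2 * (N : ℝ) ^ (θ + ε₂ / 2)) := by
          refine mul_le_mul (mul_le_mul_of_nonneg_left hqN (by positivity))
            (g1.trans (mul_le_mul_of_nonneg_left hnle (by norm_num))) (by positivity)
            (by positivity)
      _ = (200 * T * X) * ((N : ℝ) ^ (ε₂ / 2) * (N : ℝ) ^ (θ + ε₂ / 2)) := by ring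
      _ ≤ (N : ℝ) ^ (δ / 2) * ((N : ℝ) ^ (ε₂ / 2) * (N : ℝ) ^ (θ + ε₂ / 2)) :=
          mul_le_mul_of_nonneg_right hTN (by positivity)
      _ = (N : ℝ) ^ (δ / 2 + (ε₂ / 2 + (θ + ε₂ / 2))) := by
          rw [Real.rpow_add hN0 (δ / 2), Real.rpow_add hN0 (ε₂ / 2)]
      _ ≤ (N : ℝ) ^ (1 / 2 : ℝ) := Real.rpow_le_rpow_of_exponent_le hN1 (by rw [hθ]; linarith)
      _ = Real.sqrt N := by rw [Real.sqrt_eq_rpow]

/-- the second moment of the mollified twisted central values -/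
theorem second_momentC {δ : ℝ} (h0 : 0 < δ) (h1 : δ < 1 / 4) {ε : ℝ} (hε : 0 < ε) (C₀ : ℝ)
    (X : ℕ) : ∃ ε₁ κ : ℝ, 0 < ε₁ ∧ 0 < κ ∧ ∀ ε₂ : ℝ, 0 < ε₂ → ε₂ ≤ ε₁ →
    ∃ (κ₁ : ℝ) (N₀ : ℕ), 0 < κ₁ ∧ ∀ (N : ℕ) [Fact N.Prime], N₀ ≤ N → ∀ {ι : Type} [Fintype ι]
    (f : ι → S2 N), Function.Injective f → (∀ i, IsNew (f i)) → (∀ i, co (f i) N = 1) →
    ∀ (q : ℕ) [NeZero q] (χ : DirichletCharacter ℂ q), PQ χ → (q : ℝ) ≤ (N : ℝ) ^ κ₁ →
    ∀ a : ℕ → ℕ → ℝ, ∀ s : ℕ → ℕ → ℝ, (∀ k m, s k m ≠ 0 → m ≤ X) →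
    (∀ k ∈ QI q X, ShC q (zz (N * q ^ 2)) (KA ε₂ (N * q ^ 2)) (a k) ∧
      cnC q (zz (N * q ^ 2)) (KA ε₂ (N * q ^ 2)) (a k) ≤ C₀ ∧
      cdC q (zz (N * q ^ 2)) (KA ε₂ (N * q ^ 2)) (a k) (s k) ≤ κ) →
      ∑ i, om (f i) * ‖4 * Real.pi * gl (f i) (QC q δ ε₂ (N * q ^ 2) X)
          (tw χ (vv q δ ε₂ (N * q ^ 2) X a))‖ ^ 2 ≤
        2 * (1 + 1 / (1 - 2 * δ)) *
          ∑ k ∈ QI q X, cnC q (zz (N * q ^ 2)) (KA ε₂ (N * q ^ 2)) (a k) + ε := by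
  rcases Nat.eq_zero_or_pos X with hX | hX
  · -- no terms
    subst hX
    refine ⟨1, 1, one_pos, one_pos, fun ε₂ _ _ => ⟨1, 0, one_pos, ?_⟩⟩
    intro N _ _ ι _ f _ _ _ q _ χ _ _ a s _ _
    have e1 : QI q 0 = ∅ := by
      unfold QI
      simp
    have e2 : QC q δ ε₂ (N * q ^ 2) 0 = 0 := by
      unfold QC
      rw [zero_mul, mul_zero]
    have e3 : ∀ i, gl (f i) 0 (tw χ (vv q δ ε₂ (N * q ^ 2) 0 a)) = 0 := by
      intro i
      unfold gl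
      simp
    rw [e1, e2, Finset.sum_empty, mul_zero, zero_add]
    simp only [e3, mul_zero, norm_zero]
    simp
    exact hε.le
  have hpi := Real.pi_pos
  have hXR : (0 : ℝ) < X := by exact_mod_cast hX
  set C₁ : ℝ := X * max C₀ 0 with hC₁
  have hC₁0 : 0 ≤ C₁ := by
    have := le_max_right C₀ 0
    positivity
  set K : ℝ := 1 + max C₁ 0 with hK
  have hK1 : 1 ≤ K := by
    rw [hK]
    have := le_max_right C₁ 0
    linarith
  have hK0 : 0 < K := by linarith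
  set ε' : ℝ := min 1 (ε / (8 * Real.pi * K)) with hε'
  have hε'0 : 0 < ε' := lt_min one_pos (by positivity)
  have hε'1 : ε' ≤ 1 := min_le_left _ _
  have hε'2 : 4 * Real.pi * ε' * K ≤ ε / 2 := by
    have h2 : ε' ≤ ε / (8 * Real.pi * K) := min_le_right _ _
    calc 4 * Real.pi * ε' * K ≤ 4 * Real.pi * (ε / (8 * Real.pi * K)) * K := by gcongr
      _ = ε / 2 := by
          field_simp
          ring
  obtain ⟨T, ρ, g, G, hρ, hg, hd, hint⟩ := kernel_exists hε'0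
  obtain ⟨C, hC, hfam⟩ := gfam_bound hρ
  obtain ⟨C₂, hC₂, hgd⟩ := gd_upperC
  obtain ⟨ε₁, κ, hε₁, hκ, hbs⟩ := gBS_vv hρ hg hd h0 h1 hε'0 C₀ X
  obtain ⟨N₂, hN₂⟩ := hgd δ h0 h1
  -- the bound for the main part
  set Am : ℝ := 4 * K with hAm
  have hAm0 : 0 < Am := by positivity
  set e0 : ℝ := min 1 (ε / (8 * Real.pi * (2 * Real.sqrt Am + 1))) with he
  have he0 : 0 < e0 := lt_min one_pos (by positivity)
  have he1 : e0 ≤ 1 := min_le_left _ _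
  have he2 : 4 * Real.pi * ((2 * Real.sqrt Am + 1) * e0) ≤ ε / 2 := by
    have h2 : e0 ≤ ε / (8 * Real.pi * (2 * Real.sqrt Am + 1)) := min_le_right _ _
    calc 4 * Real.pi * ((2 * Real.sqrt Am + 1) * e0)
        ≤ 4 * Real.pi * ((2 * Real.sqrt Am + 1) * (ε / (8 * Real.pi * (2 * Real.sqrt Am + 1)))) := by
          gcongr
      _ = ε / 2 := by
          field_simp
          ring
  set D : ℝ := C ^ 2 * (C₂ * K) with hD
  have hD0 : 0 < D := by positivity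
  obtain ⟨N₃, hN₃⟩ := sizes h0 h1 (ε := e0 ^ 2 / D) (by positivity)
  refine ⟨min ε₁ (δ / 40), κ, lt_min hε₁ (by positivity), hκ, fun ε₂ h2 h3 => ?_⟩
  obtain ⟨κ₁, N₄, hκ₁, hN₄⟩ := hbs ε₂ h2 (h3.trans (min_le_left _ _))
  obtain ⟨N₅, hN₅⟩ := to_size h0 h1 hρ.T1 h2 (h3.trans (min_le_right _ _)) hX
  obtain ⟨N₁, hhs⟩ := gHS_vv hρ h0 h1 hε'0 C₀ X ε₂ h2
  refine ⟨min κ₁ (ε₂ / 2), max N₁ (max N₂ (max N₃ (max N₄ (max N₅ 1)))),
    lt_min hκ₁ (by positivity), ?_⟩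
  intro N _ hN ι _ f hinj hnew hco q _ χ hχ hqN a s hs hall
  have hq0 : 0 < q := Nat.pos_of_ne_zero (NeZero.ne q)
  have b1 : N₁ ≤ N := by omega
  have b2 : N₂ ≤ N := by omega
  have b3 : N₃ ≤ N := by omega
  have b4 : N₄ ≤ N := by omega
  have b5 : N₅ ≤ N := by omega
  have hN1 : (1 : ℝ) ≤ N := by exact_mod_cast (by omega : 1 ≤ N)
  have hnN : N ≤ N * q ^ 2 := Nat.le_mul_of_pos_right N (by positivity)
  have hqn : q ≤ N * q ^ 2 := by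
    calc q ≤ q ^ 2 := by
          rw [sq]
          exact Nat.le_mul_of_pos_left q hq0
      _ ≤ N * q ^ 2 := Nat.le_mul_of_pos_left _ (by omega)
  have hq1 : (q : ℝ) ≤ (N : ℝ) ^ κ₁ :=
    hqN.trans (Real.rpow_le_rpow_of_exponent_le hN1 (min_le_left _ _))
  have hq2 : (q : ℝ) ≤ (N : ℝ) ^ (ε₂ / 2) :=
    hqN.trans (Real.rpow_le_rpow_of_exponent_le hN1 (min_le_right _ _))
  obtain ⟨q1, q2⟩ := hN₅ N b5 q hq0 hq2
  set n : ℕ := N * q ^ 2 with hn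
  set Q : ℕ := QC q δ ε₂ n X with hQ
  set w := tw χ (vv q δ ε₂ n X a) with hw
  set c : ℝ := ∑ k ∈ QI q X, cnC q (zz n) (KA ε₂ n) (a k) with hc
  have hc0 : 0 ≤ c := Finset.sum_nonneg fun k _ => to_cn_nonneg _ _ _ _
  have hcC : c ≤ C₁ := by
    calc c ≤ ∑ k ∈ QI q X, max C₀ 0 :=
          Finset.sum_le_sum fun k hk => (hall k hk).2.1.trans (le_max_left _ _)
      _ = (QI q X).card * max C₀ 0 := by rw [Finset.sum_const, nsmul_eq_mul]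
      _ ≤ X * max C₀ 0 := mul_le_mul_of_nonneg_right (to_card q X) (le_max_right _ _)
  have hcK : c ≤ K := by
    have := le_max_left C₁ 0
    rw [hK]
    linarith
  have hHS : gHS N Q w ρ ≤ 1 / Real.pi * ((1 / 2 + 1 / (1 - 2 * δ)) * c) + ε' :=
    hhs N b1 q χ hχ a (fun k hk => ⟨(hall k hk).1, (hall k hk).2.1⟩)
  have hBS : gBS N Q w ρ ≤ (∫ u in Set.Ioi (0 : ℝ), g u) * (c / 2) + ε' := by
    have h := hN₄ N b4 q χ hχ hq1 a s hs hall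
    rw [← Finset.sum_div] at h
    exact h
  have hBS2 : gBS N Q w ρ ≤ (1 / Real.pi + ε') * (c / 2) + ε' := by
    refine hBS.trans (add_le_add ?_ le_rfl)
    exact mul_le_mul_of_nonneg_right hint (by positivity)
  obtain ⟨_, z2, zM, _, zl, _⟩ := hN₃ n (b3.trans hnN)
  have hz0 : (0 : ℝ) < zz n := by
    have : 0 < zz n := by omega
    exact_mod_cast this
  have hlM : D / e0 ^ 2 ≤ Real.log (MM δ n) := by
    have e1 : Real.log (zz n) ≤ Real.log (MM δ n) := Real.log_le_log hz0 (by exact_mod_cast zM.le)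
    have e2 : 1 / (e0 ^ 2 / D) = D / e0 ^ 2 := by rw [one_div_div]
    rw [e2] at zl
    exact zl.trans e1
  have hlM0 : 0 < Real.log (MM δ n) := lt_of_lt_of_le (by positivity) hlM
  have hGD : gE Q w ≤ C₂ * c / Real.log (MM δ n) := by
    have e1 : gE Q w = ∑ k ∈ QI q X, phi q / q * ∑ d ∈ Finset.Icc 1 (QQ δ ε₂ n),
        phi d * wwC q δ ε₂ n (a k) d ^ 2 := gE_vv hχ δ ε₂ n X a (fun k hk => (hall k hk).1)
    rw [e1]
    calc ∑ k ∈ QI q X, phi q / q * ∑ d ∈ Finset.Icc 1 (QQ δ ε₂ n),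
        phi d * wwC q δ ε₂ n (a k) d ^ 2 ≤
        ∑ k ∈ QI q X, C₂ * cnC q (zz n) (KA ε₂ n) (a k) / Real.log (MM δ n) :=
          Finset.sum_le_sum fun k hk =>
            hN₂ n (b2.trans hnN) q hq0 hqn (KA ε₂ n) (a k) (hall k hk).1.sup
      _ = C₂ * c / Real.log (MM δ n) := by
          rw [← Finset.sum_div, ← Finset.mul_sum]
  -- the two parts
  set B : ℝ := C * Real.sqrt (gE Q w) with hB
  have hB0 : 0 ≤ B := by positivity
  have hBe : B ≤ e0 := by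
    have e1 : gE Q w ≤ (e0 / C) ^ 2 := by
      refine hGD.trans ?_
      rw [div_le_iff₀ hlM0]
      have e2 : C₂ * c ≤ C₂ * K := mul_le_mul_of_nonneg_left hcK hC₂.le
      have e3 : C₂ * K = (e0 / C) ^ 2 * (D / e0 ^ 2) := by
        rw [hD]
        field_simp
      calc C₂ * c ≤ C₂ * K := e2
        _ = (e0 / C) ^ 2 * (D / e0 ^ 2) := e3
        _ ≤ (e0 / C) ^ 2 * Real.log (MM δ n) := mul_le_mul_of_nonneg_left hlM (by positivity)
    have e4 : Real.sqrt (gE Q w) ≤ e0 / C := Real.sqrt_le_iff.2 ⟨by positivity, e1⟩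
    calc B ≤ C * (e0 / C) := mul_le_mul_of_nonneg_left e4 hC.le
      _ = e0 := by field_simp
  set A : ℝ := (1 / Real.pi * ((1 + 1 / (1 - 2 * δ)) * c)) / 2 + ε' * (1 + c / 4) with hA
  obtain ⟨hA0, hAAm, hAeps⟩ := sec_A h1 hc0 hcC hK hε'0 hε'1 hε'2 hA
  have hAle : (gHS N Q w ρ + gBS N Q w ρ) / 2 ≤ A := by
    have e1 := add_le_add hHS hBS2
    have e2 : 1 / Real.pi * ((1 / 2 + 1 / (1 - 2 * δ)) * c) + ε' + ((1 / Real.pi + ε') * (c / 2) + ε')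
        = 2 * A := by
      rw [hA]
      ring
    linarith
  exact (hfam N f hinj hnew hco Q q1 q2 w).trans
    (sec_fin hAle hA0 hAAm hB0 hBe he1 hAeps he2)

end Pool.Agent.TK
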